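import Pool.Agent.RBt.Sing

set_option autoImplicit false

/-!
# Extension of prescribed vectors
-/

namespace Pool.Agent.RBt

open Equiv Pool.Agent.RB

variable {F : Type} [Field F] {μ δ : Type} [Fintype μ] [DecidableEq μ] [Fintype δ] [DecidableEq δ]

/-- the columns `inr _` -/
def ZZ (μ δ : Type) [Fintype μ] [DecidableEq μ] [Fintype δ] [DecidableEq δ] : Finset (μ ⊕ δ) :=
  Finset.univ.filter fun s => s.isRight = true

theorem inl_notMem (s : μ) : (Sum.inl s : μ ⊕ δ) ∉ ZZ μ δ := by simp [ZZ]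

theorem inr_mem (t : δ) : (Sum.inr t : μ ⊕ δ) ∈ ZZ μ δ := by simp [ZZ]

/-- value at standard vectors in the columns `inl _` and vectors in the span of the `e (inr _)` in the columns `inr _` -/
theorem Form_block {k : ℕ} (h : μ → Fin k → μ) (y : δ → Fin k → δ → F) :
    Form (ZZ μ δ) (fun x : (μ ⊕ δ) × Fin k => (Sum.elim (fun t => (Pi.single (Sum.inl (h t x.2)) 1 : μ ⊕ δ → F))
      (fun t => Sum.elim (fun _ => 0) (y t x.2)) x.1 : μ ⊕ δ → F)) =
      ((Wh k h : ℤ) : F) * ∏ i : Fin k, Matrix.det (Matrix.of fun t => y t i) := by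
  rw [Form_apply]
  unfold Wh
  push_cast
  have hterm : ∀ c : μ ⊕ δ → Perm (Fin k), (∀ t, c (Sum.inr t) = 1) →
      DtM c (fun x : (μ ⊕ δ) × Fin k => (Sum.elim (fun t => (Pi.single (Sum.inl (h t x.2)) 1 : μ ⊕ δ → F))
      (fun t => Sum.elim (fun _ => 0) (y t x.2)) x.1 : μ ⊕ δ → F)) =
      (∏ i : Fin k, ((eps (fun t => h t (c (Sum.inl t) i)) : ℤ) : F)) *
        ∏ i : Fin k, Matrix.det (Matrix.of fun t => y t i) := by
    intro c hc
    rw [DtM_apply, ← Finset.prod_mul_distrib]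
    refine Finset.prod_congr rfl fun i _ => ?_
    have h3 := RingHom.map_det (Int.castRingHom F)
      (Matrix.of fun j b => if h j (c (Sum.inl j) i) = b then (1 : ℤ) else 0)
    rw [eq_intCast] at h3
    unfold eps
    rw [h3, ← Matrix.det_fromBlocks_zero₂₁ _ 0 _]
    congr 1
    ext s j
    rcases s with s | s <;> rcases j with j | j
    · by_cases hh : h s (c (Sum.inl s) i) = j
      · simp [hh]
      · have hh' : ¬ j = h s (c (Sum.inl s) i) := fun e => hh e.symm
        simp [hh, hh']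
    · simp
    · simp
    · simp [hc]
  rw [← (Equiv.sumArrowEquivProdArrow μ δ (Perm (Fin k))).symm.sum_comp, Fintype.sum_prod_type, Finset.sum_mul]
  refine Finset.sum_congr rfl fun c1 _ => ?_
  rw [Finset.sum_eq_single (fun _ => 1)]
  · rw [hterm _ (fun t => rfl), ← mul_assoc]
    congr 2
    have h0 : ∀ s ∈ ZZ μ δ, (Equiv.sumArrowEquivProdArrow μ δ (Perm (Fin k))).symm (c1, fun _ => 1) s = 1 := by
      intro s hs
      rcases s with s | s
      · exact absurd hs (inl_notMem s)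
      · rfl
    rw [wt, if_pos h0]
    simp
  · intro c2 _ hc2
    have h0 : wt (ZZ μ δ) ((Equiv.sumArrowEquivProdArrow μ δ (Perm (Fin k))).symm (c1, c2)) = 0 := by
      unfold wt
      rw [if_neg]
      intro h3
      apply hc2
      funext x
      exact h3 (Sum.inr x) (inr_mem x)
    rw [h0]
    simp
  · intro h; exact absurd (Finset.mem_univ _) h

/-- finitely many matrices with right inverses: a common matrix making all products invertible -/
theorem exists_proj [Infinite F] {ν : Type} [Fintype ν] [DecidableEq ν] {k : ℕ} (Y : Fin k → Matrix δ ν F)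
    (hY : ∀ i, ∃ R : Matrix ν δ F, Y i * R = 1) :
    ∃ Q : Matrix ν δ F, ∀ i, (Y i * Q).det ≠ 0 := by
  classical
  let X : Matrix ν δ (MvPolynomial (ν × δ) F) := Matrix.of fun a b => MvPolynomial.X (a, b)
  let P : MvPolynomial (ν × δ) F := ∏ i, ((Y i).map (MvPolynomial.C : F →+* MvPolynomial (ν × δ) F) * X).det
  have hev : ∀ (Q : Matrix ν δ F) (i : Fin k), MvPolynomial.eval (fun x => Q x.1 x.2)
      (((Y i).map (MvPolynomial.C : F →+* MvPolynomial (ν × δ) F) * X).det) = (Y i * Q).det := by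
    intro Q i
    rw [RingHom.map_det]
    congr 1
    ext a b
    simp [Matrix.mul_apply, X]
  have hP : P ≠ 0 := by
    refine Finset.prod_ne_zero_iff.mpr fun i _ h0 => ?_
    obtain ⟨R, hR⟩ := hY i
    have h1 := hev R i
    rw [h0, hR] at h1
    simp at h1
  have hex : ∃ x : ν × δ → F, MvPolynomial.eval x P ≠ 0 := by
    by_contra hcon
    push Not at hcon
    apply hP
    exact MvPolynomial.funext fun x => by rw [hcon x, map_zero]
  obtain ⟨x, hx⟩ := hex
  refine ⟨Matrix.of fun a b => x (a, b), fun i h0 => hx ?_⟩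
  have h1 := hev (Matrix.of fun a b => x (a, b)) i
  rw [h0] at h1
  rw [map_prod]
  exact Finset.prod_eq_zero (Finset.mem_univ i) h1

/-- infinite fields -/
private theorem core_inf [Infinite F] {k : ℕ} {f : μ → Fin k → μ} (hf : ((Cf k f : ℤ) : F) ≠ 0)
    (b : μ ⊕ δ → μ ⊕ δ → μ ⊕ δ → F) (hb : ∀ s, Matrix.det (Matrix.of (b s)) ≠ 0) (G : δ → Fin k → μ ⊕ δ)
    (hG : ∀ t, Function.Injective (G t))
    (hY : ∀ i, ∃ R : Matrix (μ ⊕ δ) δ F, (Matrix.of fun t => b (Sum.inr t) (G t i)) * R = 1) :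
    ∃ g : μ ⊕ δ → Fin k → μ ⊕ δ, (∀ s, Function.Injective (g s)) ∧ (∀ t, g (Sum.inr t) = G t) ∧
      ∀ i, Matrix.det (Matrix.of fun s => b s (g s i)) ≠ 0 := by
  classical
  by_contra hcon
  push Not at hcon
  have hC : Cf k f ≠ 0 := fun h0 => hf (by rw [h0]; simp)
  obtain ⟨h, hI⟩ := exists_inc hC
  have hW : ((Wh k h : ℤ) : F) ≠ 0 := by
    rcases wh_eq hI with h1 | h1
    · rw [h1]; exact hf
    · rw [h1, Int.cast_neg]; exact neg_ne_zero.mpr hf
  obtain ⟨Q, hQ⟩ := exists_proj (fun i => Matrix.of fun t => b (Sum.inr t) (G t i)) hY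
  let A : Matrix (μ ⊕ δ) (μ ⊕ δ) F := Matrix.of fun x => Sum.elim (fun _ => 0) (Q x)
  let G' : μ ⊕ δ → Fin k → μ ⊕ δ := fun s => Sum.elim (fun _ _ => s) G s
  have hno : ∀ g : μ ⊕ δ → Fin k → μ ⊕ δ, (∀ s, Function.Injective (g s)) → (∀ s ∈ ZZ μ δ, g s = G' s) →
      ∃ i, Matrix.det (Matrix.of fun s => b s (g s i)) = 0 := by
    intro g hg hgG
    exact hcon g hg (fun t => by rw [hgG _ (inr_mem t)]; rfl)
  have hG' : ∀ s ∈ ZZ μ δ, Function.Injective (G' s) := by
    intro s hs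
    rcases s with s | s
    · exact absurd hs (inl_notMem s)
    · exact hG s
  have h1 := Form_sing (ZZ μ δ) b hb G' hno hG'
    (fun x : (μ ⊕ δ) × Fin k => (Sum.elim (fun t => (Pi.single (Sum.inl (h t x.2)) 1 : μ ⊕ δ → F))
      (fun _ => 0) x.1 : μ ⊕ δ → F)) A
  have h2 := Form_block h (fun t i => Matrix.vecMul (b (Sum.inr t) (G t i)) Q)
  have h3 : put (ZZ μ δ) (fun x : (μ ⊕ δ) × Fin k => (Sum.elim (fun t => (Pi.single (Sum.inl (h t x.2)) 1 : μ ⊕ δ → F))
      (fun _ => 0) x.1 : μ ⊕ δ → F)) (fun s i => Matrix.vecMul (b s (G' s i)) A) =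
      fun x : (μ ⊕ δ) × Fin k => (Sum.elim (fun t => (Pi.single (Sum.inl (h t x.2)) 1 : μ ⊕ δ → F))
      (fun t => Sum.elim (fun _ => 0) (Matrix.vecMul (b (Sum.inr t) (G t x.2)) Q)) x.1 : μ ⊕ δ → F) := by
    funext x
    rcases x with ⟨x | x, i⟩
    · simp [put, inl_notMem]
    · funext j
      rcases j with j | j
      · simp [put, inr_mem, A, Matrix.vecMul, dotProduct]
      · simp [put, inr_mem, A, Matrix.vecMul, dotProduct, G']
  rw [h3, h2] at h1
  rcases mul_eq_zero.mp h1 with h4 | h4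
  · exact hW h4
  · obtain ⟨i, -, hi⟩ := Finset.prod_eq_zero_iff.mp h4
    apply hQ i
    rw [← hi]
    congr 1

/-- **Core.** -/
theorem core_ext {k : ℕ} {f : μ → Fin k → μ} (hf : ((Cf k f : ℤ) : F) ≠ 0)
    (b : μ ⊕ δ → μ ⊕ δ → μ ⊕ δ → F) (hb : ∀ s, Matrix.det (Matrix.of (b s)) ≠ 0) (G : δ → Fin k → μ ⊕ δ)
    (hG : ∀ t, Function.Injective (G t))
    (hY : ∀ i, ∃ R : Matrix (μ ⊕ δ) δ F, (Matrix.of fun t => b (Sum.inr t) (G t i)) * R = 1) :
    ∃ g : μ ⊕ δ → Fin k → μ ⊕ δ, (∀ s, Function.Injective (g s)) ∧ (∀ t, g (Sum.inr t) = G t) ∧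
      ∀ i, Matrix.det (Matrix.of fun s => b s (g s i)) ≠ 0 := by
  classical
  let E := AlgebraicClosure F
  let φ : F →+* E := algebraMap F E
  have hφ : Function.Injective φ := (algebraMap F E).injective
  have : Infinite E := IsAlgClosed.instInfinite
  have hdet : ∀ M : Matrix (μ ⊕ δ) (μ ⊕ δ) F, (Matrix.of fun i j => φ (M i j)).det = φ M.det := by
    intro M
    rw [RingHom.map_det]
    rfl
  obtain ⟨g, hg1, hg2, hg3⟩ := core_inf (F := E) (f := f) (by
      intro h0
      apply hf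
      apply hφ
      rw [map_intCast, h0, map_zero]) (fun s x j => φ (b s x j)) (fun s => by
      have h1 := hdet (Matrix.of (b s))
      have h2 : (Matrix.of fun i j => φ ((Matrix.of (b s)) i j)) = Matrix.of (fun x j => φ (b s x j)) := rfl
      rw [h2] at h1
      rw [h1]
      exact fun h0 => hb s (hφ (by rw [h0, map_zero]))) G hG (fun i => by
      obtain ⟨R, hR⟩ := hY i
      refine ⟨R.map φ, ?_⟩
      have h1 : (Matrix.of fun t => fun j => φ (b (Sum.inr t) (G t i) j)) =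
        (Matrix.of fun t => b (Sum.inr t) (G t i)).map φ := rfl
      rw [h1, ← Matrix.map_mul, hR]
      exact Matrix.map_one φ (map_zero φ) (map_one φ))
  refine ⟨g, hg1, hg2, fun i h0 => hg3 i ?_⟩
  have h1 := hdet (Matrix.of fun s => b s (g s i))
  rw [h0, map_zero] at h1
  exact h1

end Pool.Agent.RBt
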