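import Pool.Agent.RB.Sgn

set_option autoImplicit false

/-!
# Products of determinants as multilinear forms
-/

namespace Pool.Agent.RBt

open Equiv Pool.Agent.RB

variable {ν : Type} [Fintype ν] [DecidableEq ν] {F : Type} [Field F]

private theorem dt_upd {k : ℕ} (c : ν → Perm (Fin k)) (w : ν × Fin k → ν → F) (x : ν × Fin k) (z : ν → F) :
    ∏ i : Fin k, Matrix.det (Matrix.of fun s => Function.update w x z (s, c s i)) =
      Matrix.det (Matrix.updateRow (Matrix.of fun s => w (s, c s ((c x.1).symm x.2))) x.1 z) *
        ∏ i ∈ Finset.univ.erase ((c x.1).symm x.2), Matrix.det (Matrix.of fun s => w (s, c s i)) := by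
  rw [← Finset.mul_prod_erase Finset.univ _ (Finset.mem_univ ((c x.1).symm x.2))]
  congr 1
  · congr 1
    ext s j
    rw [Matrix.updateRow_apply]
    by_cases hs : s = x.1
    · subst hs
      simp
    · have h1 : (s, c s ((c x.1).symm x.2)) ≠ x := fun h => hs (congrArg Prod.fst h)
      simp [hs, Function.update_of_ne h1]
  · refine Finset.prod_congr rfl fun i hi => ?_
    congr 1
    ext s j
    have h1 : (s, c s i) ≠ x := by
      rintro rfl
      exact (Finset.ne_of_mem_erase hi) (by simp)
    simp [Function.update_of_ne h1]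

/-- The product of `k` determinants, row `s` of the `i`-th one being `w (s, c s i)`, as a multilinear map. -/
noncomputable def DtM {k : ℕ} (c : ν → Perm (Fin k)) : MultilinearMap F (fun _ : ν × Fin k => ν → F) F where
  toFun w := ∏ i : Fin k, Matrix.det (Matrix.of fun s => w (s, c s i))
  map_update_add' := by
    intro inst w x y z
    have : inst = instDecidableEqProd := Subsingleton.elim _ _
    subst this
    rw [dt_upd, dt_upd, dt_upd, Matrix.det_updateRow_add, add_mul]
  map_update_smul' := by
    intro inst w x r y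
    have : inst = instDecidableEqProd := Subsingleton.elim _ _
    subst this
    rw [dt_upd, dt_upd, Matrix.det_updateRow_smul, smul_eq_mul, mul_assoc]

theorem DtM_apply {k : ℕ} (c : ν → Perm (Fin k)) (w : ν × Fin k → ν → F) :
    DtM c w = ∏ i : Fin k, Matrix.det (Matrix.of fun s => w (s, c s i)) := rfl

/-- equivariance under linear maps of the space -/
theorem DtM_mul {k : ℕ} (c : ν → Perm (Fin k)) (w : ν × Fin k → ν → F) (A : Matrix ν ν F) :
    DtM c (fun x => Matrix.vecMul (w x) A) = A.det ^ k * DtM c w := by
  rw [DtM_apply, DtM_apply]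
  have h : ∀ i : Fin k, Matrix.det (Matrix.of fun s => Matrix.vecMul (w (s, c s i)) A) =
      A.det * Matrix.det (Matrix.of fun s => w (s, c s i)) := by
    intro i
    rw [mul_comm, ← Matrix.det_mul]
    congr 1
  rw [Finset.prod_congr rfl fun i _ => h i, Finset.prod_mul_distrib, Finset.prod_const, Finset.card_univ,
    Fintype.card_fin]

/-- standard vectors -/
theorem DtM_single {k : ℕ} (c : ν → Perm (Fin k)) (h : ν → Fin k → ν) :
    DtM c (fun x => (Pi.single (h x.1 x.2) 1 : ν → F)) = ∏ i : Fin k, ((eps (fun s => h s (c s i)) : ℤ) : F) := by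
  rw [DtM_apply]
  refine Finset.prod_congr rfl fun i _ => ?_
  unfold eps
  have h2 := RingHom.map_det (Int.castRingHom F)
    (Matrix.of fun j b => if h j (c j i) = b then (1 : ℤ) else 0)
  rw [eq_intCast] at h2
  rw [h2]
  congr 1
  ext s j
  by_cases hh : h s (c s i) = j
  · simp [hh]
  · have hh' : ¬ j = h s (c s i) := fun e => hh e.symm
    simp [hh, hh']

end Pool.Agent.RBt
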