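import Mathlib

set_option autoImplicit false

/-!
# Filling partial transversals greedily
-/

namespace Pool.Agent.RBt

variable {α : Type}

theorem encard_biUnion_le {ι : Type} [DecidableEq ι] (T : Finset ι) (A : ι → Set α) (h : ∀ i ∈ T, (A i).encard ≤ 1) :
    (⋃ i ∈ T, A i).encard ≤ (T.card : ℕ∞) := by
  induction T using Finset.induction with
  | empty => simp
  | insert a s ha ih =>
    rw [Finset.set_biUnion_insert, Finset.card_insert_of_notMem ha]
    refine (Set.encard_union_le _ _).trans ?_
    rw [Nat.cast_add, Nat.cast_one, add_comm]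
    exact add_le_add (ih fun i hi => h i (Finset.mem_insert_of_mem hi)) (h a (Finset.mem_insert_self _ _))

/-- one cell -/
private theorem fill_one (M : Matroid α) {n k : ℕ} (B : Fin n → Set α) (hB : ∀ i, M.IsBase (B i))
    (hn : ∀ i, (B i).encard = (n : ℕ∞)) (D : Finset (Fin n)) (hD : D.card + k ≤ n + 1)
    (Q : Fin k → Set α) (hQ1 : ∀ j i, (Q j ∩ B i).encard ≤ 1)
    (hQD : ∀ j, Q j ⊆ ⋃ i ∈ D, B i) (j : Fin k) (t : Fin n) (ht : t ∈ D) (hjt : ¬ (Q j ∩ B t).Nonempty) :
    ∃ x ∈ B t, (∀ l, x ∉ Q l) ∧ x ∉ M.closure (Q j) := by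
  classical
  have hjt' : Q j ∩ B t = ∅ := Set.not_nonempty_iff_eq_empty.mp hjt
  by_contra hcon
  push Not at hcon
  have hsub : B t ⊆ (⋃ l ∈ Finset.univ.erase j, Q l ∩ B t) ∪ (M.closure (Q j) ∩ B t) := by
    intro x hx
    by_cases h : ∀ l, x ∉ Q l
    · exact Or.inr ⟨hcon x hx h, hx⟩
    · push Not at h
      obtain ⟨l, hl⟩ := h
      have hlj : l ≠ j := by
        rintro rfl
        exact hjt ⟨x, hl, hx⟩
      left
      simp only [Set.mem_iUnion]
      exact ⟨l, Finset.mem_erase.mpr ⟨hlj, Finset.mem_univ _⟩, hl, hx⟩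
  have h1 : (⋃ l ∈ Finset.univ.erase j, Q l ∩ B t).encard ≤ ((k - 1 : ℕ) : ℕ∞) := by
    refine (encard_biUnion_le _ _ fun l _ => hQ1 l t).trans ?_
    rw [Finset.card_erase_of_mem (Finset.mem_univ j), Finset.card_univ, Fintype.card_fin]
  have h2 : (Q j).encard ≤ ((D.card - 1 : ℕ) : ℕ∞) := by
    have h3 : Q j ⊆ ⋃ i ∈ D.erase t, Q j ∩ B i := by
      intro x hx
      have h4 := hQD j hx
      simp only [Set.mem_iUnion] at h4
      obtain ⟨i, hi, hxi⟩ := h4
      have hit : i ≠ t := by
        rintro rfl
        exact hjt ⟨x, hx, hxi⟩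
      simp only [Set.mem_iUnion]
      exact ⟨i, Finset.mem_erase.mpr ⟨hit, hi⟩, hx, hxi⟩
    refine (Set.encard_le_encard h3).trans ((encard_biUnion_le _ _ fun i _ => hQ1 j i).trans ?_)
    rw [Finset.card_erase_of_mem ht]
  have h3 : (M.closure (Q j) ∩ B t).encard ≤ ((D.card - 1 : ℕ) : ℕ∞) := by
    have hi : M.Indep (M.closure (Q j) ∩ B t) := (hB t).indep.subset Set.inter_subset_right
    rw [← hi.eRk_eq_encard]
    refine (M.eRk_mono Set.inter_subset_left).trans ?_
    rw [M.eRk_closure_eq]
    exact (M.eRk_le_encard _).trans h2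
  have h4 := (Set.encard_le_encard hsub).trans ((Set.encard_union_le _ _).trans (add_le_add h1 h3))
  rw [hn t] at h4
  have h5 : n ≤ (k - 1) + (D.card - 1) := by exact_mod_cast h4
  have h6 : 0 < D.card := Finset.card_pos.mpr ⟨t, ht⟩
  have h7 := j.pos
  omega

/-- all cells of a set `S` -/
theorem fill (M : Matroid α) {n k : ℕ} (B : Fin n → Set α) (hB : ∀ i, M.IsBase (B i))
    (hn : ∀ i, (B i).encard = (n : ℕ∞)) (hd : ∀ i j, i ≠ j → Disjoint (B i) (B j))
    (D : Finset (Fin n)) (hD : D.card + k ≤ n + 1)
    (P : Fin k → Set α) (hP : ∀ j, M.Indep (P j)) (hPd : ∀ j l, j ≠ l → Disjoint (P j) (P l))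
    (hP1 : ∀ j i, (P j ∩ B i).encard ≤ 1) (hPD : ∀ j, P j ⊆ ⋃ i ∈ D, B i) (S : Finset (Fin k × Fin n)) :
    (∀ x ∈ S, x.2 ∈ D) → ∃ Q : Fin k → Set α, (∀ j, P j ⊆ Q j) ∧ (∀ j, M.Indep (Q j)) ∧
      (∀ j l, j ≠ l → Disjoint (Q j) (Q l)) ∧ (∀ j i, (Q j ∩ B i).encard ≤ 1) ∧
      (∀ j, Q j ⊆ ⋃ i ∈ D, B i) ∧ ∀ x ∈ S, (Q x.1 ∩ B x.2).Nonempty := by
  classical
  induction S using Finset.induction with
  | empty =>
    intro _
    exact ⟨P, fun j => subset_rfl, hP, hPd, hP1, hPD, fun x hx => absurd hx (Finset.notMem_empty x)⟩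
  | insert a S ha ih =>
    intro hS
    obtain ⟨Q, h1, h2, h3, h4, h5, h6⟩ := ih fun x hx => hS x (Finset.mem_insert_of_mem hx)
    obtain ⟨j, t⟩ := a
    have ht : t ∈ D := hS (j, t) (Finset.mem_insert_self _ _)
    by_cases hne : (Q j ∩ B t).Nonempty
    · refine ⟨Q, h1, h2, h3, h4, h5, fun x hx => ?_⟩
      rcases Finset.mem_insert.mp hx with rfl | hx
      · exact hne
      · exact h6 x hx
    · obtain ⟨y, hyB, hyQ, hyc⟩ := fill_one M B hB hn D hD Q h4 h5 j t ht hne
      have hsub : ∀ l, Q l ⊆ Function.update Q j (insert y (Q j)) l := by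
        intro l
        by_cases hl : l = j
        · subst hl
          rw [Function.update_self]
          exact Set.subset_insert _ _
        · rw [Function.update_of_ne hl]
      refine ⟨Function.update Q j (insert y (Q j)), fun l => (h1 l).trans (hsub l), ?_, ?_, ?_, ?_, ?_⟩
      · intro l
        by_cases hl : l = j
        · subst hl
          rw [Function.update_self, (h2 l).insert_indep_iff]
          exact Or.inl ⟨(hB t).subset_ground hyB, hyc⟩
        · rw [Function.update_of_ne hl]
          exact h2 l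
      · intro l l' hll
        by_cases hl : l = j
        · subst hl
          rw [Function.update_self, Function.update_of_ne hll.symm, Set.disjoint_insert_left]
          exact ⟨hyQ l', h3 l l' hll⟩
        · by_cases hl' : l' = j
          · subst hl'
            rw [Function.update_self, Function.update_of_ne hl, Set.disjoint_insert_right]
            exact ⟨hyQ l, h3 l l' hll⟩
          · rw [Function.update_of_ne hl, Function.update_of_ne hl']
            exact h3 l l' hll
      · intro l i
        by_cases hl : l = j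
        · subst hl
          rw [Function.update_self]
          by_cases hi : i = t
          · subst hi
            have h7 : insert y (Q l) ∩ B i ⊆ {y} := by
              rintro z ⟨hz1, hz2⟩
              rcases hz1 with hz1 | hz1
              · exact hz1
              · exact absurd ⟨z, hz1, hz2⟩ hne
            exact (Set.encard_le_encard h7).trans (by rw [Set.encard_singleton])
          · have h7 : insert y (Q l) ∩ B i ⊆ Q l ∩ B i := by
              rintro z ⟨hz1, hz2⟩
              rcases hz1 with hz1 | hz1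
              · subst hz1
                exact absurd hz2 (fun h => Set.disjoint_left.mp (hd i t hi) h hyB)
              · exact ⟨hz1, hz2⟩
            exact (Set.encard_le_encard h7).trans (h4 l i)
        · rw [Function.update_of_ne hl]
          exact h4 l i
      · intro l
        by_cases hl : l = j
        · subst hl
          rw [Function.update_self]
          refine Set.insert_subset ?_ (h5 l)
          simp only [Set.mem_iUnion]
          exact ⟨t, ht, hyB⟩
        · rw [Function.update_of_ne hl]
          exact h5 l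
      · intro x hx
        rcases Finset.mem_insert.mp hx with rfl | hx
        · refine ⟨y, ?_, hyB⟩
          rw [Function.update_self]
          exact Set.mem_insert _ _
        · obtain ⟨z, hz1, hz2⟩ := h6 x hx
          exact ⟨z, hsub _ hz1, hz2⟩

end Pool.Agent.RBt
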