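import Pool.Agent.RBt.Sing
import Pool.Agent.RotaP.Koe

set_option autoImplicit false

/-!
# Prescribed vectors adapted to a common flag
-/

namespace Pool.Agent.RBt

open Equiv Pool.Agent.RB Pool.Agent.RotaP

variable {F : Type} [Field F]

/-- as `Form_zero`, up to scalars -/
theorem Form_zero_smul {ν : Type} [Fintype ν] [DecidableEq ν] {k : ℕ} (Z : Finset ν) (b : ν → ν → ν → F)
    (hb : ∀ s, Matrix.det (Matrix.of (b s)) ≠ 0) (G : ν → Fin k → ν)
    (hno : ∀ g : ν → Fin k → ν, (∀ s, Function.Injective (g s)) → (∀ s ∈ Z, g s = G s) →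
      ∃ i, Matrix.det (Matrix.of fun s => b s (g s i)) = 0)
    (hG : ∀ s ∈ Z, Function.Injective (G s))
    (w : ν × Fin k → ν → F) (hw : ∀ s ∈ Z, ∀ i, ∃ r : F, w (s, i) = r • b s (G s i)) :
    Form Z w = 0 := by
  classical
  choose! r hr using hw
  let w' : ν × Fin k → ν → F := fun x => if x.1 ∈ Z then b x.1 (G x.1 x.2) else w x
  have h1 : w = fun x => (if x.1 ∈ Z then r x.1 x.2 else 1) • w' x := by
    funext x
    by_cases hx : x.1 ∈ Z
    · simp only [w', hx, if_true]
      exact hr x.1 hx x.2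
    · simp [w', hx]
  have h2 : Form Z w' = 0 := Form_zero Z b hb G hno hG w' (fun s hs i => by simp [w', hs])
  rw [h1, MultilinearMap.map_smul_univ, h2, smul_zero]

/-- the values on a polynomial family are the values of a polynomial -/
theorem Form_poly {ν : Type} [Fintype ν] [DecidableEq ν] {k : ℕ} (Z : Finset ν) (w : ν × Fin k → ν → F)
    (y : ν → Fin k → ν → Polynomial F) :
    ∃ P : Polynomial F, ∀ lam : F, P.eval lam = Form Z (put Z w (fun s i j => (y s i j).eval lam)) := by
  classical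
  let M : (ν → Perm (Fin k)) → Fin k → Matrix ν ν (Polynomial F) := fun c i => Matrix.of fun s j =>
    if s ∈ Z then y s i j else Polynomial.C (w (s, c s i) j)
  refine ⟨∑ c : ν → Perm (Fin k), Polynomial.C ((wt Z c : ℤ) : F) * ∏ i, Matrix.det (M c i), fun lam => ?_⟩
  rw [Form_apply, Polynomial.eval_finsetSum]
  refine Finset.sum_congr rfl fun c _ => ?_
  rw [Polynomial.eval_mul, Polynomial.eval_C, Polynomial.eval_prod]
  by_cases hc : ∀ s ∈ Z, c s = 1
  · congr 1
    rw [DtM_apply]
    refine Finset.prod_congr rfl fun i _ => ?_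
    have h1 := RingHom.map_det (Polynomial.evalRingHom lam) (M c i)
    rw [Polynomial.coe_evalRingHom] at h1
    rw [h1]
    congr 1
    ext s j
    by_cases hs : s ∈ Z
    · simp [M, put, hs, hc s hs]
    · simp [M, put, hs]
  · rw [wt, if_neg hc]
    simp

/-- no good choice, prescribed vectors adapted to the standard flag: the form vanishes at the leading vectors -/
theorem Form_flag [Infinite F] {n k : ℕ} (Z : Finset (Fin n)) (b : Fin n → Fin n → Fin n → F)
    (hb : ∀ s, Matrix.det (Matrix.of (b s)) ≠ 0) (G : Fin n → Fin k → Fin n)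
    (hno : ∀ g : Fin n → Fin k → Fin n, (∀ s, Function.Injective (g s)) → (∀ s ∈ Z, g s = G s) →
      ∃ i, Matrix.det (Matrix.of fun s => b s (g s i)) = 0)
    (hG : ∀ s ∈ Z, Function.Injective (G s)) (htri : ∀ s ∈ Z, ∀ x j, x < j → b s x j = 0)
    (hdiag : ∀ s ∈ Z, ∀ x, b s x x ≠ 0) (w : Fin n × Fin k → Fin n → F) :
    Form Z (put Z w (fun s i => Pi.single (G s i) 1)) = 0 := by
  classical
  let y : Fin n → Fin k → Fin n → Polynomial F := fun s i j =>
    Polynomial.C (b s (G s i) j) * Polynomial.X ^ ((G s i : ℕ) - (j : ℕ))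
  obtain ⟨P, hP⟩ := Form_poly Z w y
  have hroot : ∀ lam : F, lam ≠ 0 → P.eval lam = 0 := by
    intro lam hl
    rw [hP]
    let D : Matrix (Fin n) (Fin n) F := Matrix.diagonal fun j => lam⁻¹ ^ (n - 1 - (j : ℕ))
    let Q := put Z w (fun s i j => (y s i j).eval lam)
    have h1 : Form Z (fun x => Matrix.vecMul (Q x) D) = 0 := by
      refine Form_zero_smul Z b hb G hno hG _ ?_
      intro s hs i
      refine ⟨lam⁻¹ ^ (n - 1 - (G s i : ℕ)), ?_⟩
      funext j
      have h2 : Q (s, i) j = b s (G s i) j * lam ^ ((G s i : ℕ) - (j : ℕ)) := by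
        simp [Q, put, hs, y]
      rw [Matrix.vecMul_diagonal, h2, Pi.smul_apply, smul_eq_mul]
      rcases lt_or_ge (G s i) j with hj | hj
      · rw [htri s hs _ _ hj]
        simp
      · have hj' : (j : ℕ) ≤ (G s i : ℕ) := hj
        have h3 : n - 1 - (j : ℕ) = (n - 1 - (G s i : ℕ)) + ((G s i : ℕ) - (j : ℕ)) := by
          have := (G s i).2
          omega
        rw [h3, pow_add]
        have h4 : lam ^ ((G s i : ℕ) - (j : ℕ)) * lam⁻¹ ^ ((G s i : ℕ) - (j : ℕ)) = 1 := by
          rw [← mul_pow, mul_inv_cancel₀ hl, one_pow]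
        calc b s (G s i) j * lam ^ ((G s i : ℕ) - (j : ℕ)) *
              (lam⁻¹ ^ (n - 1 - (G s i : ℕ)) * lam⁻¹ ^ ((G s i : ℕ) - (j : ℕ)))
            = (lam ^ ((G s i : ℕ) - (j : ℕ)) * lam⁻¹ ^ ((G s i : ℕ) - (j : ℕ))) *
              (lam⁻¹ ^ (n - 1 - (G s i : ℕ)) * b s (G s i) j) := by ring
          _ = lam⁻¹ ^ (n - 1 - (G s i : ℕ)) * b s (G s i) j := by rw [h4, one_mul]
    rw [Form_mul] at h1
    rcases mul_eq_zero.mp h1 with h2 | h2
    · exfalso
      refine pow_ne_zero k ?_ h2
      rw [Matrix.det_diagonal]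
      exact Finset.prod_ne_zero_iff.mpr fun j _ => pow_ne_zero _ (inv_ne_zero hl)
    · exact h2
  have hz : P * Polynomial.X = 0 := by
    refine Polynomial.funext fun lam => ?_
    rw [Polynomial.eval_mul, Polynomial.eval_zero, Polynomial.eval_X]
    by_cases h0 : lam = 0
    · rw [h0, mul_zero]
    · rw [hroot _ h0, zero_mul]
  have hP0 : P = 0 := by
    rcases mul_eq_zero.mp hz with h1 | h1
    · exact h1
    · exact absurd h1 Polynomial.X_ne_zero
  have h5 := hP 0
  rw [hP0, Polynomial.eval_zero] at h5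
  have h6 : put Z w (fun s i j => (y s i j).eval 0) =
      fun x => (if x.1 ∈ Z then b x.1 (G x.1 x.2) (G x.1 x.2) else 1) •
        put Z w (fun s i => Pi.single (G s i) 1) x := by
    funext x
    by_cases hx : x.1 ∈ Z
    · funext j
      simp only [put, hx, if_true, y, Polynomial.eval_mul, Polynomial.eval_C, Polynomial.eval_pow,
        Polynomial.eval_X, Pi.smul_apply, smul_eq_mul]
      rcases lt_trichotomy (G x.1 x.2) j with hj | hj | hj
      · rw [htri _ hx _ _ hj, Pi.single_eq_of_ne hj.ne']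
        simp
      · subst hj
        simp
      · have hj' : (j : ℕ) < (G x.1 x.2 : ℕ) := hj
        rw [Pi.single_eq_of_ne hj.ne, zero_pow (by omega), mul_zero, mul_zero]
    · simp [put, hx]
  rw [h6, MultilinearMap.map_smul_univ, eq_comm, smul_eq_mul] at h5
  rcases mul_eq_zero.mp h5 with h7 | h7
  · exfalso
    obtain ⟨x, -, hx⟩ := Finset.prod_eq_zero_iff.mp h7
    by_cases hZ : x.1 ∈ Z
    · rw [if_pos hZ] at hx
      exact hdiag _ hZ _ hx
    · rw [if_neg hZ] at hx
      exact one_ne_zero hx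
  · exact h7

/-- rows `e_{ref s}`, `s ∈ Z`, reduce a determinant -/
theorem det_block {n : ℕ} (Z : Finset (Fin n)) (ref : Perm (Fin n)) (N : Matrix (Fin n) (Fin n) F)
    (hN : ∀ s ∈ Z, N s = Pi.single (ref s) 1) :
    N.det = ((Perm.sign ref : ℤ) : F) *
      Matrix.det (Matrix.of fun (a b : {s : Fin n // s ∉ Z}) => N a.1 (ref b.1)) := by
  classical
  have h1 : (N.submatrix id ref).det = ((Perm.sign ref : ℤ) : F) * N.det := by
    rw [Matrix.det_permute' ref N]
  have h2 : ((Perm.sign ref : ℤ) : F) * ((Perm.sign ref : ℤ) : F) = 1 := by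
    rcases Int.units_eq_one_or (Perm.sign ref) with h | h <;> rw [h] <;> simp
  have h3 : (N.submatrix id ref).det =
      Matrix.det (Matrix.of fun (a b : {s : Fin n // s ∉ Z}) => N a.1 (ref b.1)) := by
    have h4 : ((N.submatrix id ref).submatrix (Equiv.sumCompl (fun s : Fin n => s ∉ Z))
        (Equiv.sumCompl (fun s : Fin n => s ∉ Z))) =
        Matrix.fromBlocks (Matrix.of fun (a b : {s : Fin n // s ∉ Z}) => N a.1 (ref b.1))
          (Matrix.of fun (a : {s : Fin n // s ∉ Z}) (b : {s : Fin n // ¬ s ∉ Z}) => N a.1 (ref b.1)) 0 1 := by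
      ext a b
      rcases a with a | a <;> rcases b with b | b
      · rfl
      · rfl
      · have h5 := hN a.1 (not_not.mp a.2)
        have h6 : ref b.1 ≠ ref a.1 := fun h => a.2 (by
          have := ref.injective h
          rw [← this]
          exact b.2)
        simp [h5, Pi.single_eq_of_ne h6]
      · have h5 := hN a.1 (not_not.mp a.2)
        by_cases hab : a = b
        · subst hab
          simp [h5]
        · have h6 : ref b.1 ≠ ref a.1 := fun h => hab (Subtype.ext (ref.injective h).symm)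
          simp [h5, Pi.single_eq_of_ne h6, hab]
    rw [← Matrix.det_submatrix_equiv_self (Equiv.sumCompl (fun s : Fin n => s ∉ Z)), h4,
      Matrix.det_fromBlocks_zero₂₁, Matrix.det_one, mul_one]
  rw [← h3, h1, ← mul_assoc, h2, one_mul]

end Pool.Agent.RBt
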