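import Pool.Agent.RBt.Flag

set_option autoImplicit false

/-!
# The count for prescribed columns adapted to a flag
-/

namespace Pool.Agent.RBt

open Equiv Pool.Agent.RB Pool.Agent.RotaP

variable {F : Type} [Field F]

/-- value of the form at the leading vectors -/
theorem Form_eval {n k : ℕ} (Z : Finset (Fin n)) (e1 : {s : Fin n // s ∉ Z} ≃ Fin k) (h : Fin n → Fin k → Fin n)
    (ref : Fin n → Perm (Fin n)) (href : ∀ i (a : {s : Fin n // s ∉ Z}), ref i a.1 = h i (e1 a)) :
    Form Z (put Z (fun x : Fin n × Fin n => (Pi.single x.2 1 : Fin n → F)) (fun s i => Pi.single (ref i s) 1)) =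
      (∏ i, ((Perm.sign (ref i) : ℤ) : F)) * ((Wh k h : ℤ) : F) := by
  classical
  have hterm : ∀ c : Fin n → Perm (Fin n), (∀ s ∈ Z, c s = 1) →
      DtM c (put Z (fun x : Fin n × Fin n => (Pi.single x.2 1 : Fin n → F)) (fun s i => Pi.single (ref i s) 1)) =
      (∏ i, ((Perm.sign (ref i) : ℤ) : F)) *
        ∏ i, Matrix.det (Matrix.of fun (a l : Fin k) =>
          (1 : Matrix (Fin n) (Fin n) F) (h i l) (c (e1.symm a).1 i)) := by
    intro c hc
    rw [DtM_apply, ← Finset.prod_mul_distrib]
    refine Finset.prod_congr rfl fun i _ => ?_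
    rw [det_block Z (ref i) _ (fun s hs => by
      funext j
      simp [put, hs, hc s hs])]
    congr 1
    rw [← Matrix.det_submatrix_equiv_self e1.symm]
    congr 1
    ext a l
    have h1 : ref i (e1.symm l).1 = h i l := by rw [href, Equiv.apply_symm_apply]
    have h2 : ((e1.symm a).1 : Fin n) ∉ Z := (e1.symm a).2
    simp only [Matrix.submatrix_apply, Matrix.of_apply, h1, put, h2, if_false, Matrix.one_apply, Pi.single_apply]
  rw [Form_apply, ← (Equiv.piEquivPiSubtypeProd (fun s : Fin n => s ∉ Z) (fun _ => Perm (Fin n))).symm.sum_comp,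
    Fintype.sum_prod_type]
  have h1 : ∀ c1 : {s : Fin n // s ∉ Z} → Perm (Fin n),
      ∑ c2 : {s : Fin n // ¬ s ∉ Z} → Perm (Fin n),
        ((wt Z ((Equiv.piEquivPiSubtypeProd (fun s : Fin n => s ∉ Z) (fun _ => Perm (Fin n))).symm (c1, c2)) : ℤ) : F) *
        DtM ((Equiv.piEquivPiSubtypeProd (fun s : Fin n => s ∉ Z) (fun _ => Perm (Fin n))).symm (c1, c2))
          (put Z (fun x : Fin n × Fin n => (Pi.single x.2 1 : Fin n → F)) (fun s i => Pi.single (ref i s) 1)) =
      (∏ i, ((Perm.sign (ref i) : ℤ) : F)) * ((∏ a, ((Perm.sign (c1 a) : ℤ) : F)) *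
        ∏ i, Matrix.det (Matrix.of fun (a l : Fin k) =>
          (1 : Matrix (Fin n) (Fin n) F) (h i l) (c1 (e1.symm a) i))) := by
    intro c1
    have hcZ : ∀ s (hs : s ∈ Z) (c2 : {s : Fin n // ¬ s ∉ Z} → Perm (Fin n)),
        (Equiv.piEquivPiSubtypeProd (fun s : Fin n => s ∉ Z) (fun _ => Perm (Fin n))).symm (c1, c2) s =
          c2 ⟨s, not_not.mpr hs⟩ := by
      intro s hs c2
      rw [Equiv.piEquivPiSubtypeProd_symm_apply, dif_neg (not_not.mpr hs)]
    have hcN : ∀ (a : {s : Fin n // s ∉ Z}) (c2 : {s : Fin n // ¬ s ∉ Z} → Perm (Fin n)),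
        (Equiv.piEquivPiSubtypeProd (fun s : Fin n => s ∉ Z) (fun _ => Perm (Fin n))).symm (c1, c2) a.1 =
          c1 a := by
      intro a c2
      rw [Equiv.piEquivPiSubtypeProd_symm_apply, dif_pos a.2]
    rw [Finset.sum_eq_single (fun _ => 1)]
    · have h2 : ∀ s ∈ Z, (Equiv.piEquivPiSubtypeProd (fun s : Fin n => s ∉ Z) (fun _ => Perm (Fin n))).symm
          (c1, fun _ => 1) s = 1 := fun s hs => hcZ s hs _
      rw [hterm _ h2, wt, if_pos h2]
      have h3 : ∏ s, (Perm.sign ((Equiv.piEquivPiSubtypeProd (fun s : Fin n => s ∉ Z)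
          (fun _ => Perm (Fin n))).symm (c1, fun _ => 1) s) : ℤ) = ∏ a, (Perm.sign (c1 a) : ℤ) := by
        rw [← (Equiv.sumCompl (fun s : Fin n => s ∉ Z)).prod_comp, Fintype.prod_sum_type]
        have h4 : ∏ a : {s : Fin n // ¬ s ∉ Z}, (Perm.sign ((Equiv.piEquivPiSubtypeProd (fun s : Fin n => s ∉ Z)
          (fun _ => Perm (Fin n))).symm (c1, fun _ => 1) (Equiv.sumCompl (fun s : Fin n => s ∉ Z) (Sum.inr a))) : ℤ) = 1 := by
          refine Finset.prod_eq_one fun a _ => ?_
          have h5 := h2 a.1 (not_not.mp a.2)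
          rw [show (Equiv.sumCompl (fun s : Fin n => s ∉ Z) (Sum.inr a)) = a.1 from rfl, h5]
          simp
        rw [h4, mul_one]
        refine Finset.prod_congr rfl fun a _ => ?_
        rw [show (Equiv.sumCompl (fun s : Fin n => s ∉ Z) (Sum.inl a)) = a.1 from rfl, hcN]
      rw [h3]
      push_cast
      have h6 : ∀ (i : Fin n) (a : Fin k), (Equiv.piEquivPiSubtypeProd (fun s : Fin n => s ∉ Z)
          (fun _ => Perm (Fin n))).symm (c1, fun _ => 1) (e1.symm a).1 i = c1 (e1.symm a) i := by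
        intro i a
        rw [hcN]
      have h8 : ∏ i, Matrix.det (Matrix.of fun (a l : Fin k) => (1 : Matrix (Fin n) (Fin n) F) (h i l)
          ((Equiv.piEquivPiSubtypeProd (fun s : Fin n => s ∉ Z) (fun _ => Perm (Fin n))).symm
            (c1, fun _ => 1) (e1.symm a).1 i)) =
          ∏ i, Matrix.det (Matrix.of fun (a l : Fin k) =>
            (1 : Matrix (Fin n) (Fin n) F) (h i l) (c1 (e1.symm a) i)) := by
        refine Finset.prod_congr rfl fun i _ => ?_
        congr 1
        ext a l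
        rw [Matrix.of_apply, Matrix.of_apply, h6]
      rw [h8]
      ring
    · intro c2 _ hc2
      have h0 : wt Z ((Equiv.piEquivPiSubtypeProd (fun s : Fin n => s ∉ Z) (fun _ => Perm (Fin n))).symm
          (c1, c2)) = 0 := by
        rw [wt, if_neg]
        intro h3
        apply hc2
        funext a
        have h5 := h3 a.1 (not_not.mp a.2)
        rw [hcZ a.1 (not_not.mp a.2)] at h5
        exact h5
      rw [h0]
      simp
    · intro h; exact absurd (Finset.mem_univ _) h
  rw [Finset.sum_congr rfl fun c1 _ => h1 c1, ← Finset.mul_sum]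
  congr 1
  have h7 := alt_sum k (fun _ : Fin k => (1 : Matrix (Fin n) (Fin n) F)) h
  rw [Finset.prod_congr rfl (fun i _ => Matrix.det_one), Finset.prod_const_one, one_mul] at h7
  rw [← h7, ← (Equiv.arrowCongr e1 (Equiv.refl (Perm (Fin n)))).sum_comp]
  refine Finset.sum_congr rfl fun c1 _ => ?_
  congr 1
  rw [← e1.prod_comp]
  refine Finset.prod_congr rfl fun a _ => ?_
  simp

/-- infinite fields -/
private theorem flag_inf [Infinite F] {n k : ℕ} (hk : k ≤ n) {f : Fin n → Fin k → Fin n}
    (hf : ((Cf k f : ℤ) : F) ≠ 0) (Z : Finset (Fin n)) (hZ : Z.card = n - k)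
    (b : Fin n → Fin n → Fin n → F) (hb : ∀ s, Matrix.det (Matrix.of (b s)) ≠ 0)
    (htri : ∀ s ∈ Z, ∀ x j, x < j → b s x j = 0) :
    ∃ g : Fin n → Fin n → Fin n, (∀ s, Function.Injective (g s)) ∧
      ∀ i, Matrix.det (Matrix.of fun s => b s (g s i)) ≠ 0 := by
  classical
  by_contra hcon
  push Not at hcon
  have hC : Cf k f ≠ 0 := fun h0 => hf (by rw [h0]; simp)
  obtain ⟨h, hI⟩ := exists_inc hC
  have hW : ((Wh k h : ℤ) : F) ≠ 0 := by
    rcases wh_eq hI with h1 | h1
    · rw [h1]; exact hf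
    · rw [h1, Int.cast_neg]; exact neg_ne_zero.mpr hf
  have hdiag : ∀ s ∈ Z, ∀ x, b s x x ≠ 0 := by
    intro s hs x h0
    apply hb s
    rw [Matrix.det_of_isLowerTriangular (Matrix.of (b s)) (fun i j hij => htri s hs i j hij)]
    exact Finset.prod_eq_zero (Finset.mem_univ x) h0
  have hcount : ∀ x, (Finset.univ.filter fun j => x ∈ Finset.univ.image (h j)).card = k := by
    intro x
    have e : (Finset.univ.filter fun j => x ∈ Finset.univ.image (h j)) = Finset.univ.image (f x) := by
      ext j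
      simp only [Finset.mem_filter, Finset.mem_univ, true_and, Finset.mem_image]
      constructor
      · rintro ⟨l, hl⟩
        obtain ⟨m, hm⟩ := (hI.iff x j).mpr ⟨l, hl⟩
        exact ⟨m, hm⟩
      · rintro ⟨l, hl⟩
        obtain ⟨m, hm⟩ := (hI.iff x j).mp ⟨l, hl⟩
        exact ⟨m, hm⟩
    rw [e, Finset.card_image_of_injective _ (hI.finj x), Finset.card_univ, Fintype.card_fin]
  have hQ1 : ∀ j, ((Finset.univ.image (h j))ᶜ).card = n - k := by
    intro j
    rw [Finset.card_compl, Finset.card_image_of_injective _ (hI.hinj j), Fintype.card_fin, Finset.card_univ,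
      Fintype.card_fin]
  have hQ2 : ∀ x, (Finset.univ.filter (fun j => x ∈ (Finset.univ.image (h j))ᶜ)).card = n - k := by
    intro x
    have h3 := hcount x
    have h4 : Finset.univ.filter (fun j => x ∈ (Finset.univ.image (h j))ᶜ) =
        (Finset.univ.filter (fun j => x ∈ Finset.univ.image (h j)))ᶜ := by
      ext j
      simp
    rw [h4, Finset.card_compl, h3, Fintype.card_fin]
  obtain ⟨ρ, hρ⟩ := koenig n (n - k) (fun j => (Finset.univ.image (h j))ᶜ) hQ1 hQ2
  have c1 : Fintype.card {s : Fin n // s ∉ Z} = k := by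
    rw [Fintype.card_of_subtype Zᶜ (by simp), Finset.card_compl, Fintype.card_fin, hZ]
    omega
  have c2 : Fintype.card {s : Fin n // ¬ s ∉ Z} = n - k := by
    rw [Fintype.card_of_subtype Z (by simp), hZ]
  let e1 := Fintype.equivFinOfCardEq c1
  let e2 := Fintype.equivFinOfCardEq c2
  let R : Fin n → Fin n → Fin n := fun i s =>
    if hs : s ∉ Z then h i (e1 ⟨s, hs⟩) else ρ (e2 ⟨s, hs⟩) i
  have hρinj : ∀ i, Function.Injective (fun l => ρ l i) := by
    intro i
    have h3 : (Finset.univ.image (fun l => ρ l i)).card = (Finset.univ : Finset (Fin (n - k))).card := by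
      rw [hρ i, hQ1 i, Finset.card_univ, Fintype.card_fin]
    have h4 := Finset.card_image_iff.mp h3
    exact fun x y hxy => h4 (by simp) (by simp) hxy
  have hρmem : ∀ i l, ρ l i ∉ Finset.univ.image (h i) := by
    intro i l
    have h3 : ρ l i ∈ Finset.univ.image (fun l => ρ l i) := Finset.mem_image.mpr ⟨l, Finset.mem_univ _, rfl⟩
    rw [hρ i] at h3
    exact Finset.mem_compl.mp h3
  have hR : ∀ i, Function.Injective (R i) := by
    intro i s s' hss
    by_cases h1 : s ∉ Z <;> by_cases h2 : s' ∉ Z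
    · simp only [R, h1, h2, not_false_eq_true, dif_pos] at hss
      have := e1.injective (hI.hinj i hss)
      exact congrArg Subtype.val this
    · simp only [R, h1, h2, not_false_eq_true, dif_pos, dif_neg] at hss
      exact absurd (hss ▸ Finset.mem_image.mpr ⟨_, Finset.mem_univ _, rfl⟩) (hρmem i (e2 ⟨s', h2⟩))
    · simp only [R, h1, h2, not_false_eq_true, dif_pos, dif_neg] at hss
      exact absurd (hss.symm ▸ Finset.mem_image.mpr ⟨_, Finset.mem_univ _, rfl⟩) (hρmem i (e2 ⟨s, h1⟩))
    · simp only [R, h1, h2, not_false_eq_true, dif_neg] at hss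
      have := e2.injective (hρinj i hss)
      exact congrArg Subtype.val this
  let ref : Fin n → Perm (Fin n) := fun i => Equiv.ofBijective (R i) (Finite.injective_iff_bijective.mp (hR i))
  have href : ∀ i (a : {s : Fin n // s ∉ Z}), ref i a.1 = h i (e1 a) := by
    intro i a
    change R i a.1 = _
    simp only [R]
    rw [dif_pos a.2]
  have hG : ∀ s ∈ Z, Function.Injective (fun i => ref i s) := by
    intro s hs i i' hii
    have h1 : ∀ i, ref i s = ρ (e2 ⟨s, not_not.mpr hs⟩) i := by
      intro i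
      change R i s = _
      simp only [R]
      rw [dif_neg (not_not.mpr hs)]
    have h2 : ref i s = ref i' s := hii
    rw [h1, h1] at h2
    exact (ρ (e2 ⟨s, not_not.mpr hs⟩)).injective h2
  have h1 := Form_flag Z b hb (fun s i => ref i s) (fun g hg _ => hcon g hg) hG htri hdiag
    (fun x : Fin n × Fin n => (Pi.single x.2 1 : Fin n → F))
  rw [Form_eval Z e1 h ref href] at h1
  rcases mul_eq_zero.mp h1 with h2 | h2
  · obtain ⟨i, -, hi⟩ := Finset.prod_eq_zero_iff.mp h2
    rcases Int.units_eq_one_or (Perm.sign (ref i)) with h3 | h3 <;> rw [h3] at hi <;> simp at hi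
  · exact hW h2

/-- **Core.** -/
theorem flag_core {n k : ℕ} (hk : k ≤ n) {f : Fin n → Fin k → Fin n}
    (hf : ((Cf k f : ℤ) : F) ≠ 0) (Z : Finset (Fin n)) (hZ : Z.card = n - k)
    (b : Fin n → Fin n → Fin n → F) (hb : ∀ s, Matrix.det (Matrix.of (b s)) ≠ 0)
    (htri : ∀ s ∈ Z, ∀ x j, x < j → b s x j = 0) :
    ∃ g : Fin n → Fin n → Fin n, (∀ s, Function.Injective (g s)) ∧
      ∀ i, Matrix.det (Matrix.of fun s => b s (g s i)) ≠ 0 := by
  classical
  let E := AlgebraicClosure F
  let φ : F →+* E := algebraMap F E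
  have hφ : Function.Injective φ := (algebraMap F E).injective
  have : Infinite E := IsAlgClosed.instInfinite
  have hdet : ∀ M : Matrix (Fin n) (Fin n) F, (Matrix.of fun i j => φ (M i j)).det = φ M.det := by
    intro M
    rw [RingHom.map_det]
    rfl
  obtain ⟨g, hg1, hg2⟩ := flag_inf (F := E) hk (f := f) (by
      intro h0
      apply hf
      apply hφ
      rw [map_intCast, h0, map_zero]) Z hZ (fun s x j => φ (b s x j)) (fun s => by
      have h1 := hdet (Matrix.of (b s))
      have h2 : (Matrix.of fun i j => φ ((Matrix.of (b s)) i j)) = Matrix.of (fun x j => φ (b s x j)) := rfl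
      rw [h2] at h1
      rw [h1]
      exact fun h0 => hb s (hφ (by rw [h0, map_zero]))) (fun s hs x j hxj => by
      rw [htri s hs x j hxj, map_zero])
  refine ⟨g, hg1, fun i h0 => hg2 i ?_⟩
  have h1 := hdet (Matrix.of fun s => b s (g s i))
  rw [h0, map_zero] at h1
  exact h1

end Pool.Agent.RBt
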