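import Pool.Agent.RBt.Core
import Pool.Agent.RBt.Fill
import Pool.Agent.RBh.Num
import Pool.Agent.RBn.Bd
import Pool.Agent.RB.Lin

set_option autoImplicit false

/-!
# Extension of partial transversals of a represented matroid
-/

namespace Pool.Agent.RBt

open Equiv Pool.Agent.RB

variable {F : Type} [Field F]

/-- coordinates of independent vectors form a matrix with a right inverse -/
theorem right_inv {W ν δ : Type} [AddCommGroup W] [Module F W] [Fintype ν] [DecidableEq ν] [Fintype δ] [DecidableEq δ]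
    (u : ν → W) (Y : Matrix δ ν F) (h : LinearIndependent F (fun t => ∑ j, Y t j • u j)) :
    ∃ R : Matrix ν δ F, Y * R = 1 := by
  have hinj : LinearMap.ker (Y.vecMulLinear) = ⊥ := by
    rw [LinearMap.ker_eq_bot']
    intro c hc
    rw [Matrix.vecMulLinear_apply] at hc
    rw [Fintype.linearIndependent_iff] at h
    funext t
    refine h c ?_ t
    calc ∑ t, c t • ∑ j, Y t j • u j = ∑ t, ∑ j, (c t * Y t j) • u j := by
          refine Finset.sum_congr rfl fun t _ => ?_
          rw [Finset.smul_sum]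
          exact Finset.sum_congr rfl fun j _ => smul_smul _ _ _
      _ = ∑ j, (∑ t, c t * Y t j) • u j := by
          rw [Finset.sum_comm]
          exact Finset.sum_congr rfl fun j _ => (Finset.sum_smul).symm
      _ = 0 := by
          refine Finset.sum_eq_zero fun j _ => ?_
          have h1 := congrFun hc j
          have h2 : ∑ t, c t * Y t j = 0 := h1
          rw [h2, zero_smul]
  obtain ⟨G, hG⟩ := LinearMap.exists_leftInverse_of_injective _ hinj
  refine ⟨Matrix.of fun j t => G (Pi.single j 1) t, ?_⟩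
  ext t t'
  have h1 : G (Y t) = Pi.single t 1 := by
    have h2 := LinearMap.congr_fun hG (Pi.single t 1)
    rw [LinearMap.comp_apply, Matrix.vecMulLinear_apply, Matrix.single_one_vecMul] at h2
    exact h2
  have h3 : G (Y t) = ∑ j, Y t j • G (Pi.single j 1) := by
    conv_lhs => rw [pi_eq_sum_univ' (Y t)]
    rw [map_sum]
    refine Finset.sum_congr rfl fun j _ => ?_
    rw [map_smul]
  have h4 := congrFun (h3.symm.trans h1) t'
  rw [Matrix.mul_apply, Matrix.one_apply]
  rw [Finset.sum_apply] at h4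
  simp only [Pi.smul_apply, smul_eq_mul] at h4
  rw [show (∑ j, Y t j * (Matrix.of fun j t => G (Pi.single j 1) t) j t') = ∑ j, Y t j * G (Pi.single j 1) t' from rfl,
    h4]
  simp [Pi.single_apply, eq_comm]

variable {α W : Type} [AddCommGroup W] [Module F W]

/-- enumerations of the bases -/
theorem exists_enum (B : Set α) {n : ℕ} (hn : B.encard = (n : ℕ∞)) :
    ∃ e : Fin n → α, Function.Injective e ∧ Set.range e = B := by
  have hfin : B.Finite := Set.finite_of_encard_eq_coe hn
  have : Fintype B := hfin.fintype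
  have hcard : Fintype.card B = n := by
    have h1 := hn
    rw [← Set.coe_fintypeCard] at h1
    exact_mod_cast h1
  let e := (Fintype.equivFinOfCardEq hcard).symm
  refine ⟨fun i => (e i : α), Subtype.val_injective.comp e.injective, ?_⟩
  ext y
  constructor
  · rintro ⟨i, rfl⟩
    exact (e i).2
  · intro hy
    exact ⟨e.symm ⟨y, hy⟩, by simp⟩

/-- `n` elements with an invertible coordinate matrix form a base -/
theorem isBase_of_det (M : Matroid α) (v : α → W) (hv : ∀ I ⊆ M.E, M.Indep I ↔ LinearIndepOn F v I) {n : ℕ}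
    (B0 : Set α) (hB0 : M.IsBase B0) (hn0 : B0.encard = (n : ℕ∞)) (u : Fin n → W) (hu : LinearIndependent F u)
    (x : Fin n → α) (hxE : ∀ s, x s ∈ M.E) (D : Matrix (Fin n) (Fin n) F) (hx : ∀ s, v (x s) = ∑ j, D s j • u j)
    (hD : D.det ≠ 0) : Function.Injective x ∧ M.IsBase (Set.range x) := by
  have hlin : LinearIndependent F (v ∘ x) := by
    rw [Fintype.linearIndependent_iff]
    intro c hc
    have h1 : ∑ j, (∑ s, c s * D s j) • u j = 0 := by
      rw [← hc]
      calc ∑ j, (∑ s, c s * D s j) • u j = ∑ j, ∑ s, c s • D s j • u j := by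
            refine Finset.sum_congr rfl fun j _ => ?_
            rw [Finset.sum_smul]
            refine Finset.sum_congr rfl fun s _ => ?_
            rw [smul_smul]
        _ = ∑ s, ∑ j, c s • D s j • u j := Finset.sum_comm
        _ = ∑ s, c s • (v ∘ x) s := by
            refine Finset.sum_congr rfl fun s _ => ?_
            rw [← Finset.smul_sum, ← hx]
            rfl
    have h2 := Fintype.linearIndependent_iff.mp hu _ h1
    have h3 : Matrix.vecMul c D = 0 := by
      funext j
      exact h2 j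
    exact fun s => congrFun (Matrix.eq_zero_of_vecMul_eq_zero hD h3) s
  have hinj : Function.Injective x := Function.Injective.of_comp hlin.injective
  refine ⟨hinj, ?_⟩
  have hE : Set.range x ⊆ M.E := by
    rintro y ⟨s, rfl⟩
    exact hxE s
  have hind : M.Indep (Set.range x) := (hv _ hE).mpr ((linearIndepOn_range_iff hinj v).mpr hlin)
  obtain ⟨B', hB', hsub⟩ := hind.exists_isBase_superset
  have hc1 : B'.encard = (n : ℕ∞) := by
    rw [← hn0]
    exact hB'.encard_eq_encard_of_isBase hB0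
  have hc2 : (Set.range x).encard = (n : ℕ∞) := by
    rw [← Set.image_univ, hinj.encard_image, Set.encard_univ]
    simp
  have hfin : B'.Finite := Set.finite_of_encard_eq_coe hc1
  have heq : Set.range x = B' := (hfin.subset hsub).eq_of_subset_of_encard_le hsub (by rw [hc1, hc2])
  rw [heq]
  exact hB'

/-- **Extension**, the prescribed elements given as an array. -/
theorem matroid_ext (M : Matroid α) (v : α → W) (hv : ∀ I ⊆ M.E, M.Indep I ↔ LinearIndepOn F v I) {n k d : ℕ}
    (hn0 : 0 < n) (e : Fin n ≃ Fin k ⊕ Fin d) {f : Fin k → Fin k → Fin k} (hf : ((Cf k f : ℤ) : F) ≠ 0)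
    (B : Fin n → Set α) (hB : ∀ i, M.IsBase (B i)) (hn : ∀ i, (B i).encard = (n : ℕ∞))
    (x0 : Fin d → Fin k → α) (h1 : ∀ t i, x0 t i ∈ B (e.symm (Sum.inr t)))
    (h2 : ∀ t, Function.Injective (x0 t)) (h3 : ∀ i, LinearIndependent F (fun t => v (x0 t i))) :
    ∃ x : Fin n → Fin k → α, (∀ s i, x s i ∈ B s) ∧ (∀ s, Function.Injective (x s)) ∧
      (∀ t i, x (e.symm (Sum.inr t)) i = x0 t i) ∧
      ∀ i, Function.Injective (fun s => x s i) ∧ M.IsBase (Set.range fun s => x s i) := by
  classical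
  choose ε he1 he2 using fun s => exists_enum (B s) (hn s)
  let s0 : Fin n := ⟨0, hn0⟩
  have hbase : ∀ s, M.IsBase (Set.range (ε s)) := fun s => by rw [he2]; exact hB s
  have hA : ∀ s, ∃ A : Matrix (Fin n) (Fin n) F, A.det ≠ 0 ∧ ∀ j, v (ε s j) = ∑ x, A x j • v (ε s0 x) :=
    fun s => coords M v hv (ε s0) (ε s) (hbase s0) (he1 s0) (hbase s) (he1 s)
  choose A hdet hA using hA
  have hG0 : ∀ t i, ∃ j, ε (e.symm (Sum.inr t)) j = x0 t i := by
    intro t i
    have h4 := h1 t i
    rw [← he2] at h4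
    exact h4
  choose G0 hG0 using hG0
  let b : Fin k ⊕ Fin d → Fin k ⊕ Fin d → Fin k ⊕ Fin d → F := fun s x j => A (e.symm s) (e.symm j) (e.symm x)
  have hb : ∀ s, Matrix.det (Matrix.of (b s)) ≠ 0 := by
    intro s
    have h4 : Matrix.of (b s) = ((A (e.symm s)).transpose).submatrix e.symm e.symm := rfl
    rw [h4, Matrix.det_submatrix_equiv_self, Matrix.det_transpose]
    exact hdet _
  have hu : LinearIndependent F (fun x => v (ε s0 x)) :=
    (linearIndepOn_range_iff (he1 s0) v).mp ((hv _ (hbase s0).subset_ground).mp (hbase s0).indep)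
  obtain ⟨g, hg1, hg2, hg3⟩ := core_ext hf b hb (fun t i => e (G0 t i)) (fun t i i' h => by
      refine h2 t ?_
      rw [← hG0 t i, ← hG0 t i', e.injective h]) (fun i => by
      refine right_inv (fun j => v (ε s0 (e.symm j))) _ ?_
      have h5 : (fun t => ∑ j, (Matrix.of fun t => b (Sum.inr t) (e (G0 t i))) t j • v (ε s0 (e.symm j))) =
          fun t => v (x0 t i) := by
        funext t
        rw [← hG0 t i, hA, ← e.symm.sum_comp]
        refine Finset.sum_congr rfl fun j _ => ?_
        simp [b]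
      rw [h5]
      exact h3 i)
  refine ⟨fun s i => ε s (e.symm (g (e s) i)), fun s i => ?_, fun s => ?_, fun t i => ?_, fun i => ?_⟩
  · rw [← he2 s]
    exact ⟨_, rfl⟩
  · exact (he1 s).comp (e.symm.injective.comp (hg1 (e s)))
  · simp only [Equiv.apply_symm_apply, hg2, Equiv.symm_apply_apply]
    exact hG0 t i
  · refine isBase_of_det M v hv (B s0) (hB s0) (hn s0) (fun x => v (ε s0 x)) hu _
      (fun s => (hbase s).subset_ground ⟨_, rfl⟩) (Matrix.of fun s j => A s j (e.symm (g (e s) i)))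
      (fun s => hA s _) ?_
    have h6 := hg3 i
    have h7 : (Matrix.of fun s => b s (g s i)) =
        (Matrix.of fun s j => A s j (e.symm (g (e s) i))).submatrix e.symm e.symm := by
      ext s j
      simp [b]
    rw [h7, Matrix.det_submatrix_equiv_self] at h6
    exact h6

/-- **Extension**, the prescribed elements given as sets. -/
theorem extend_sets (M : Matroid α) (v : α → W) (hv : ∀ I ⊆ M.E, M.Indep I ↔ LinearIndepOn F v I) {n k : ℕ}
    (hn0 : 0 < n) {f : Fin k → Fin k → Fin k} (hf : ((Cf k f : ℤ) : F) ≠ 0)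
    (B : Fin n → Set α) (hB : ∀ i, M.IsBase (B i)) (hn : ∀ i, (B i).encard = (n : ℕ∞))
    (hd : ∀ i j, i ≠ j → Disjoint (B i) (B j)) (D : Finset (Fin n)) (hD : D.card + k ≤ n)
    (P : Fin k → Set α) (hP : ∀ j, M.Indep (P j)) (hPd : ∀ j l, j ≠ l → Disjoint (P j) (P l))
    (hP1 : ∀ j i, (P j ∩ B i).encard ≤ 1) (hPD : ∀ j, P j ⊆ ⋃ i ∈ D, B i) :
    ∃ T : Fin k → Set α, (∀ j, P j ⊆ T j) ∧ (∀ j, M.IsBase (T j)) ∧ (∀ j i, (T j ∩ B i).encard = 1) ∧
      (∀ j l, j ≠ l → Disjoint (T j) (T l)) := by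
  classical
  obtain ⟨D', hDD', -, hD'⟩ := Finset.exists_subsuperset_card_eq (Finset.subset_univ D)
    (show D.card ≤ n - k by omega) (by rw [Finset.card_univ, Fintype.card_fin]; omega)
  obtain ⟨Q, q1, q2, q3, q4, q5, q6⟩ := fill M B hB hn hd D' (by omega) P hP hPd hP1
    (fun j => (hPD j).trans (Set.biUnion_subset_biUnion_left (by exact_mod_cast hDD')))
    (Finset.univ ×ˢ D') (fun x hx => (Finset.mem_product.mp hx).2)
  have c1 : Fintype.card {i : Fin n // i ∉ D'} = k := by
    rw [Fintype.card_of_subtype D'ᶜ (by simp), Finset.card_compl, Fintype.card_fin, hD']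
    omega
  have c2 : Fintype.card {i : Fin n // ¬ i ∉ D'} = n - k := by
    rw [Fintype.card_of_subtype D' (by simp), hD']
  let e1 := Fintype.equivFinOfCardEq c1
  let e2 := Fintype.equivFinOfCardEq c2
  let e : Fin n ≃ Fin k ⊕ Fin (n - k) :=
    (Equiv.sumCompl (fun i : Fin n => i ∉ D')).symm.trans (Equiv.sumCongr e1 e2)
  have hes : ∀ t, e.symm (Sum.inr t) = (e2.symm t).1 := fun t => rfl
  have hesD : ∀ t, e.symm (Sum.inr t) ∈ D' := by
    intro t
    rw [hes]
    exact not_not.mp (e2.symm t).2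
  have hsur : ∀ i ∈ D', ∃ t, e.symm (Sum.inr t) = i := by
    intro i hi
    refine ⟨e2 ⟨i, not_not.mpr hi⟩, ?_⟩
    rw [hes, Equiv.symm_apply_apply]
  have hx0 : ∀ (t : Fin (n - k)) (i : Fin k), ∃ y, y ∈ Q i ∩ B (e.symm (Sum.inr t)) := fun t i =>
    q6 (i, e.symm (Sum.inr t)) (Finset.mem_product.mpr ⟨Finset.mem_univ _, hesD t⟩)
  choose x0 hx0 using hx0
  have huniqB : ∀ (i j : Fin n) (y : α), y ∈ B i → y ∈ B j → i = j := by
    intro i j y hi hj
    by_contra hne
    exact Set.disjoint_left.mp (hd i j hne) hi hj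
  have huniqQ : ∀ (i j : Fin k) (y : α), y ∈ Q i → y ∈ Q j → i = j := by
    intro i j y hi hj
    by_contra hne
    exact Set.disjoint_left.mp (q3 i j hne) hi hj
  have hxinj : ∀ i, Function.Injective (fun t => x0 t i) := by
    intro i t t' h
    have h4 := huniqB _ _ _ (hx0 t i).2 (by
      have h5 : x0 t i = x0 t' i := h
      rw [h5]
      exact (hx0 t' i).2)
    exact Sum.inr_injective (e.symm.injective h4)
  obtain ⟨x, x1, x2, x3, x4⟩ := matroid_ext M v hv hn0 e hf B hB hn x0 (fun t i => (hx0 t i).2)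
    (fun t i i' h => huniqQ i i' (x0 t i) (hx0 t i).1 (by rw [h]; exact (hx0 t i').1))
    (fun i => by
      have h4 : M.Indep (Set.range fun t => x0 t i) := (q2 i).subset (by
        rintro y ⟨t, rfl⟩
        exact (hx0 t i).1)
      exact (linearIndepOn_range_iff (hxinj i) v).mp ((hv _ h4.subset_ground).mp h4))
  refine ⟨fun j => Set.range fun s => x s j, fun j => ?_, fun j => (x4 j).2, fun j i => ?_, fun j l hjl => ?_⟩
  · intro y hy
    have h4 := q1 j hy
    have h5 := q5 j h4
    simp only [Set.mem_iUnion] at h5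
    obtain ⟨i, hi, hyi⟩ := h5
    obtain ⟨t, ht⟩ := hsur i hi
    refine ⟨i, ?_⟩
    have h6 : (Q j ∩ B i).Subsingleton := Set.encard_le_one_iff_subsingleton.mp (q4 j i)
    refine h6 ⟨?_, x1 i j⟩ ⟨h4, hyi⟩
    rw [← ht, x3]
    exact (hx0 t j).1
  · have h4 : (Set.range fun s => x s j) ∩ B i = {x i j} := by
      ext y
      constructor
      · rintro ⟨⟨s, rfl⟩, hy⟩
        have := huniqB _ _ _ (x1 s j) hy
        subst this
        rfl
      · rintro rfl
        exact ⟨⟨i, rfl⟩, x1 i j⟩
    rw [h4, Set.encard_singleton]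
  · rw [Set.disjoint_left]
    rintro y ⟨s, rfl⟩ ⟨t, ht⟩
    have h4 : x t l = x s j := ht
    have h5 : t = s := huniqB _ _ _ (x1 t l) (by rw [h4]; exact x1 s j)
    subst h5
    exact hjl (x2 t h4).symm

/-- the signed count of order `p - 1` in the field -/
theorem exists_count {p : ℕ} (hp : p.Prime)
    (hF : ringChar F = 0 ∨ ringChar F = p ∨ (p - 1).factorial ^ (p - 1) < ringChar F) :
    ∃ f : Fin (p - 1) → Fin (p - 1) → Fin (p - 1), ((Cf (p - 1) f : ℤ) : F) ≠ 0 := by
  by_cases hp2 : p = 2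
  · subst hp2
    refine ⟨fun s _ => s, ?_⟩
    rw [show Cf (2 - 1) (fun (s : Fin (2 - 1)) _ => s) = 1 from Cf_one 1]
    simp
  · have : Fact p.Prime := ⟨hp⟩
    have hodd := hp.odd_of_ne_two hp2
    obtain ⟨f, hf⟩ := Pool.Agent.RBh.OkP_all (p := p) hp2 (p - 1) (by
      obtain ⟨q, hq⟩ := hodd
      exact ⟨q, by omega⟩) le_rfl
    refine ⟨f, ?_⟩
    rcases hF with hF | hF | hF
    · exact Pool.Agent.RBn.cast_ne f (fun h0 => hf (by rw [h0]; simp)) (Or.inl hF)
    · intro h0
      apply hf
      have h1 := (CharP.intCast_eq_zero_iff F (ringChar F) _).mp h0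
      rw [hF] at h1
      rw [ZMod.intCast_zmod_eq_zero_iff_dvd]
      exact h1
    · exact Pool.Agent.RBn.cast_ne f (fun h0 => hf (by rw [h0]; simp)) (Or.inr hF)

end Pool.Agent.RBt
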