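import Pool.Agent.RBt.FlagCore
import Pool.Agent.RBt.Mat

set_option autoImplicit false

/-!
# All the disjoint transversal bases when the special bases have a common complete flag
-/

namespace Pool.Agent.RBt

open Equiv Pool.Agent.RB

variable {F : Type} [Field F] {α W : Type} [AddCommGroup W] [Module F W]

/-- elements of the closure of an independent set are in the span -/
theorem mem_span_of_closure (M : Matroid α) (v : α → W) (hv : ∀ I ⊆ M.E, M.Indep I ↔ LinearIndepOn F v I)
    (I : Set α) (hI : M.Indep I) (y : α) (hy : y ∈ M.closure I) : v y ∈ Submodule.span F (v '' I) := by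
  by_contra hns
  have hyI : y ∉ I := fun h => hns (Submodule.subset_span ⟨y, h, rfl⟩)
  have hyE : y ∈ M.E := M.closure_subset_ground I hy
  have h1 : LinearIndepOn F v (insert y I) := by
    rw [linearIndepOn_insert_iff]
    exact ⟨(hv _ hI.subset_ground).mp hI, fun h => absurd h hns⟩
  have h2 : M.Indep (insert y I) := (hv _ (Set.insert_subset hyE hI.subset_ground)).mpr h1
  rw [hI.insert_indep_iff] at h2
  rcases h2 with h2 | h2
  · exact h2.2 hy
  · exact hyI h2

/-- coordinates outside a set of indices vanish -/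
theorem coord_zero {n : ℕ} (u : Fin n → W) (hu : LinearIndependent F u) (S : Set (Fin n)) (a : Fin n → F)
    (h : ∑ j, a j • u j ∈ Submodule.span F (u '' S)) (j : Fin n) (hj : j ∉ S) : a j = 0 := by
  classical
  rw [Finsupp.mem_span_image_iff_linearCombination] at h
  obtain ⟨l, hl, hl2⟩ := h
  have h1 : Finsupp.linearCombination F u l = ∑ j, l j • u j := by
    rw [Finsupp.linearCombination_apply, Finsupp.sum_fintype]
    intro i
    exact zero_smul _ _
  rw [h1] at hl2
  have h2 : ∑ j, (a j - l j) • u j = 0 := by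
    rw [Finset.sum_congr rfl fun j _ => sub_smul _ _ _, Finset.sum_sub_distrib, hl2, sub_self]
  have h3 := Fintype.linearIndependent_iff.mp hu _ h2 j
  have h4 : l j = 0 := by
    by_contra h5
    exact hj (hl (Finsupp.mem_support_iff.mpr h5))
  rw [h4, sub_zero] at h3
  exact h3

/-- **Flags.** -/
theorem flag_sets (M : Matroid α) (v : α → W) (hv : ∀ I ⊆ M.E, M.Indep I ↔ LinearIndepOn F v I) {n k : ℕ}
    (hn0 : 0 < n) (hk : k ≤ n) {f : Fin n → Fin k → Fin n} (hf : ((Cf k f : ℤ) : F) ≠ 0)
    (B : Fin n → Set α) (hB : ∀ i, M.IsBase (B i)) (hn : ∀ i, (B i).encard = (n : ℕ∞))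
    (hd : ∀ i j, i ≠ j → Disjoint (B i) (B j)) (K : Finset (Fin n)) (hK : K.card ≤ k)
    (c : Fin n → Fin n → α) (hc : ∀ i, i ∉ K → Set.range (c i) = B i)
    (hflag : ∀ i j, i ∉ K → j ∉ K → ∀ x, c i x ∈ M.closure (c j '' Set.Iic x)) :
    ∃ T : Fin n → Set α, (∀ j, M.IsBase (T j)) ∧ (∀ j i, (T j ∩ B i).encard = 1) ∧
      (∀ j l, j ≠ l → Disjoint (T j) (T l)) := by
  classical
  obtain ⟨K', hKK', -, hK'⟩ := Finset.exists_subsuperset_card_eq (Finset.subset_univ K) hK
    (by rw [Finset.card_univ, Fintype.card_fin]; exact hk)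
  let Z : Finset (Fin n) := K'ᶜ
  have hZc : Z.card = n - k := by rw [Finset.card_compl, Fintype.card_fin, hK']
  have hZK : ∀ s ∈ Z, s ∉ K := fun s hs h => (Finset.mem_compl.mp hs) (hKK' h)
  have hen : ∀ s, ∃ e : Fin n → α, Function.Injective e ∧ Set.range e = B s ∧ (s ∈ Z → e = c s) := by
    intro s
    by_cases hs : s ∈ Z
    · have h1 := hc s (hZK s hs)
      refine ⟨c s, ?_, h1, fun _ => rfl⟩
      have h2 : ((Finset.univ.image (c s) : Finset α) : Set α) = B s := by
        rw [Finset.coe_image, Finset.coe_univ, Set.image_univ, h1]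
      have h3 := hn s
      rw [← h2, Set.encard_coe_eq_coe_finsetCard] at h3
      have h4 : (Finset.univ.image (c s)).card = (Finset.univ : Finset (Fin n)).card := by
        rw [Finset.card_univ, Fintype.card_fin]
        exact_mod_cast h3
      have h5 := Finset.card_image_iff.mp h4
      exact fun x y hxy => h5 (by simp) (by simp) hxy
    · obtain ⟨e, h1, h2⟩ := exists_enum (B s) (hn s)
      exact ⟨e, h1, h2, fun h => absurd h hs⟩
  choose ε he1 he2 he3 using hen
  have hs0 : ∃ s0 : Fin n, Z.Nonempty → s0 ∈ Z := by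
    by_cases hZ : Z.Nonempty
    · exact ⟨hZ.choose, fun _ => hZ.choose_spec⟩
    · exact ⟨⟨0, hn0⟩, fun h => absurd h hZ⟩
  obtain ⟨s0, hs0⟩ := hs0
  have hbase : ∀ s, M.IsBase (Set.range (ε s)) := fun s => by rw [he2]; exact hB s
  have hA : ∀ s, ∃ A : Matrix (Fin n) (Fin n) F, A.det ≠ 0 ∧ ∀ j, v (ε s j) = ∑ x, A x j • v (ε s0 x) :=
    fun s => coords M v hv (ε s0) (ε s) (hbase s0) (he1 s0) (hbase s) (he1 s)
  choose A hdet hA using hA
  have hu : LinearIndependent F (fun x => v (ε s0 x)) :=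
    (linearIndepOn_range_iff (he1 s0) v).mp ((hv _ (hbase s0).subset_ground).mp (hbase s0).indep)
  obtain ⟨g, hg1, hg2⟩ := flag_core hk hf Z hZc (fun s x j => A s j x) (fun s => by
      have h1 : (Matrix.of fun x j => A s j x) = (A s).transpose := rfl
      rw [h1, Matrix.det_transpose]
      exact hdet s) (fun s hs x j hxj => by
      have h0 : s0 ∈ Z := hs0 ⟨s, hs⟩
      refine coord_zero _ hu (Set.Iic x) (fun j => A s j x) ?_ j (by simpa using hxj)
      rw [← hA s x]
      have h1 : ε s x ∈ M.closure (ε s0 '' Set.Iic x) := by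
        rw [he3 s0 h0, he3 s hs]
        exact hflag s s0 (hZK s hs) (hZK s0 h0) x
      have h2 : M.Indep (ε s0 '' Set.Iic x) := (hbase s0).indep.subset (Set.image_subset_range _ _)
      have h3 := mem_span_of_closure M v hv _ h2 _ h1
      rw [← Set.image_comp] at h3
      exact h3)
  have huniqB : ∀ (i j : Fin n) (y : α), y ∈ B i → y ∈ B j → i = j := by
    intro i j y hi hj
    by_contra hne
    exact Set.disjoint_left.mp (hd i j hne) hi hj
  have x1 : ∀ s i, ε s (g s i) ∈ B s := fun s i => by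
    rw [← he2 s]
    exact ⟨_, rfl⟩
  refine ⟨fun j => Set.range fun s => ε s (g s j), fun j => ?_, fun j i => ?_, fun j l hjl => ?_⟩
  · exact (isBase_of_det M v hv (B s0) (hB s0) (hn s0) (fun x => v (ε s0 x)) hu _
      (fun s => (hbase s).subset_ground ⟨_, rfl⟩) (Matrix.of fun s x => A s x (g s j)) (fun s => hA s _) (hg2 j)).2
  · have h4 : (Set.range fun s => ε s (g s j)) ∩ B i = {ε i (g i j)} := by
      ext y
      constructor
      · rintro ⟨⟨s, rfl⟩, hy⟩
        have := huniqB _ _ _ (x1 s j) hy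
        subst this
        rfl
      · rintro rfl
        exact ⟨⟨i, rfl⟩, x1 i j⟩
    rw [h4, Set.encard_singleton]
  · rw [Set.disjoint_left]
    rintro y ⟨s, rfl⟩ ⟨t, ht⟩
    have h4 : ε t (g t l) = ε s (g s j) := ht
    have h5 : t = s := huniqB _ _ _ (x1 t l) (by rw [h4]; exact x1 s j)
    subst h5
    exact hjl (hg1 t (he1 t h4)).symm

/-- enumerations from a flag -/
theorem exists_flag_enum (M : Matroid α) {n : ℕ} (B : Fin n → Set α) (hB : ∀ i, M.IsBase (B i))
    (hn : ∀ i, (B i).encard = (n : ℕ∞)) (K : Finset (Fin n)) (L : ℕ → Set α) (hL : Monotone L)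
    (hLr : ∀ x : ℕ, M.eRk (L x) ≤ (x : ℕ∞))
    (hLB : ∀ i, i ∉ K → ∀ x : ℕ, x ≤ n → (B i ∩ L x).encard = (x : ℕ∞)) :
    ∃ c : Fin n → Fin n → α, (∀ i, i ∉ K → Set.range (c i) = B i) ∧
      (∀ i j, i ∉ K → j ∉ K → ∀ x, c i x ∈ M.closure (c j '' Set.Iic x)) := by
  classical
  have hex : ∀ (i x : Fin n), ∃ y, i ∉ K → y ∈ (B i ∩ L (x + 1)) \ L x := by
    intro i x
    by_cases hi : i ∈ K
    · have hne : (B i).Nonempty := by
        rw [← Set.encard_ne_zero, hn i]
        have := x.pos
        exact_mod_cast this.ne'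
      exact ⟨hne.some, fun h => absurd hi h⟩
    · by_contra hcon
      push Not at hcon
      have h1 : B i ∩ L (x + 1) ⊆ B i ∩ L x := by
        intro y hy
        by_contra hy2
        exact (hcon y).2 ⟨hy, fun h => hy2 ⟨hy.1, h⟩⟩
      have h2 := Set.encard_le_encard h1
      rw [hLB i hi _ x.2, hLB i hi _ x.2.le] at h2
      have h3 : (x : ℕ) + 1 ≤ (x : ℕ) := by exact_mod_cast h2
      omega
  choose c hc using hex
  have hinj : ∀ i, i ∉ K → Function.Injective (c i) := by
    intro i hi
    have key : ∀ x y : Fin n, x < y → c i x ≠ c i y := by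
      intro x y hxy h
      have h1 := (hc i x hi).1.2
      rw [h] at h1
      exact (hc i y hi).2 (hL (show (x : ℕ) + 1 ≤ (y : ℕ) from hxy) h1)
    intro x y hxy
    rcases lt_trichotomy x y with h | h | h
    · exact absurd hxy (key x y h)
    · exact h
    · exact absurd hxy.symm (key y x h)
  refine ⟨c, fun i hi => ?_, fun i j hi hj x => ?_⟩
  · have hsub : Set.range (c i) ⊆ B i := by
      rintro y ⟨x, rfl⟩
      exact (hc i x hi).1.1
    have hfin : (B i).Finite := Set.finite_of_encard_eq_coe (hn i)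
    refine (hfin.subset hsub).eq_of_subset_of_encard_le hsub ?_
    rw [hn i, ← Set.image_univ, (hinj i hi).encard_image, Set.encard_univ]
    simp
  · by_contra hcon
    have hind : M.Indep (c j '' Set.Iic x) := by
      refine (hB j).indep.subset ?_
      rintro y ⟨z, -, rfl⟩
      exact (hc j z hj).1.1
    have hyE : c i x ∈ M.E := (hB i).subset_ground (hc i x hi).1.1
    have h1 : M.Indep (insert (c i x) (c j '' Set.Iic x)) := by
      rw [hind.insert_indep_iff]
      exact Or.inl ⟨hyE, hcon⟩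
    have h2 : insert (c i x) (c j '' Set.Iic x) ⊆ L (x + 1) := by
      refine Set.insert_subset (hc i x hi).1.2 ?_
      rintro y ⟨z, hz, rfl⟩
      refine hL (show (z : ℕ) + 1 ≤ (x : ℕ) + 1 from ?_) (hc j z hj).1.2
      have : (z : ℕ) ≤ (x : ℕ) := hz
      omega
    have h3 : (insert (c i x) (c j '' Set.Iic x)).encard ≤ ((x + 1 : ℕ) : ℕ∞) := by
      rw [← h1.eRk_eq_encard]
      exact (M.eRk_mono h2).trans (hLr _)
    have h4 : c i x ∉ c j '' Set.Iic x := fun h => hcon (M.mem_closure_of_mem' h hyE)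
    rw [Set.encard_insert_of_notMem h4, (hinj j hj).encard_image] at h3
    have h5 : (Set.Iic x).encard = ((x + 1 : ℕ) : ℕ∞) := by
      rw [← Finset.coe_Iic, Set.encard_coe_eq_coe_finsetCard, Fin.card_Iic]
    rw [h5] at h3
    have h6 : (x : ℕ) + 1 + 1 ≤ (x : ℕ) + 1 := by exact_mod_cast h3
    omega

end Pool.Agent.RBt
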