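import Pool.Agent.RBt.Dt

set_option autoImplicit false

/-!
# The alternating form and its expansion in given bases
-/

namespace Pool.Agent.RBt

open Equiv Pool.Agent.RB

variable {ν : Type} [Fintype ν] [DecidableEq ν] {F : Type} [Field F]

/-- sign of `c`, zero unless `c s = 1` for every `s ∈ Z` -/
def wt {k : ℕ} (Z : Finset ν) (c : ν → Perm (Fin k)) : ℤ :=
  if ∀ s ∈ Z, c s = 1 then ∏ s, (Perm.sign (c s) : ℤ) else 0

/-- The form: `∑ c, sgn c * DtM c` over the `c` which are `1` on `Z`. -/
noncomputable def Form {k : ℕ} (Z : Finset ν) : MultilinearMap F (fun _ : ν × Fin k => ν → F) F :=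
  ∑ c : ν → Perm (Fin k), ((wt Z c : ℤ) : F) • DtM c

theorem Form_apply {k : ℕ} (Z : Finset ν) (w : ν × Fin k → ν → F) :
    Form Z w = ∑ c : ν → Perm (Fin k), ((wt Z c : ℤ) : F) * DtM c w := by
  unfold Form
  rw [sum_apply]
  rfl

theorem Form_mul {k : ℕ} (Z : Finset ν) (w : ν × Fin k → ν → F) (A : Matrix ν ν F) :
    Form Z (fun x => Matrix.vecMul (w x) A) = A.det ^ k * Form Z w := by
  rw [Form_apply, Form_apply, Finset.mul_sum]
  refine Finset.sum_congr rfl fun c _ => ?_
  rw [DtM_mul]
  ring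

private theorem wt_upd {k : ℕ} (Z : Finset ν) (c : ν → Perm (Fin k)) (s : ν) (hs : s ∉ Z) (l l' : Fin k)
    (hl : l ≠ l') : wt Z (Function.update c s (swap l l' * c s)) = - wt Z c := by
  unfold wt
  have h1 : (∀ t ∈ Z, Function.update c s (swap l l' * c s) t = 1) ↔ ∀ t ∈ Z, c t = 1 := by
    refine forall₂_congr fun t ht => ?_
    have hts : t ≠ s := by
      rintro rfl
      exact hs ht
    rw [Function.update_of_ne hts]
  have h2 : ∏ t, (Perm.sign (Function.update c s (swap l l' * c s) t) : ℤ) = - ∏ t, (Perm.sign (c t) : ℤ) := by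
    rw [← Finset.mul_prod_erase Finset.univ _ (Finset.mem_univ s),
      ← Finset.mul_prod_erase Finset.univ (fun t => (Perm.sign (c t) : ℤ)) (Finset.mem_univ s)]
    rw [Function.update_self, Perm.sign_mul, Perm.sign_swap hl]
    have h3 : ∏ t ∈ Finset.univ.erase s, (Perm.sign (Function.update c s (swap l l' * c s) t) : ℤ) =
        ∏ t ∈ Finset.univ.erase s, (Perm.sign (c t) : ℤ) :=
      Finset.prod_congr rfl fun t ht => by rw [Function.update_of_ne (Finset.ne_of_mem_erase ht)]
    rw [h3]
    simp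
  by_cases h : ∀ t ∈ Z, c t = 1
  · rw [if_pos h, if_pos (h1.mpr h), h2]
  · rw [if_neg h, if_neg (fun h' => h (h1.mp h')), neg_zero]

/-- alternating in the vectors of a column `s ∉ Z` -/
theorem Form_alt {k : ℕ} (Z : Finset ν) (w : ν × Fin k → ν → F) (s : ν) (hs : s ∉ Z) (l l' : Fin k)
    (hl : l ≠ l') (hw : w (s, l) = w (s, l')) : Form Z w = 0 := by
  rw [Form_apply]
  have hws : ∀ x : Fin k, w (s, swap l l' x) = w (s, x) := by
    intro x
    by_cases h1 : x = l
    · subst h1; rw [swap_apply_left, hw]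
    by_cases h2 : x = l'
    · subst h2; rw [swap_apply_right, hw]
    rw [swap_apply_of_ne_of_ne h1 h2]
  have hD : ∀ c : ν → Perm (Fin k), DtM (Function.update c s (swap l l' * c s)) w = DtM c w := by
    intro c
    rw [DtM_apply, DtM_apply]
    refine Finset.prod_congr rfl fun i _ => ?_
    congr 1
    ext t j
    by_cases ht : t = s
    · subst ht
      simp only [Matrix.of_apply, Function.update_self, Perm.mul_apply]
      rw [hws]
    · simp only [Matrix.of_apply, Function.update_of_ne ht]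
  refine Finset.sum_involution (fun c _ => Function.update c s (swap l l' * c s)) ?_ ?_ ?_ ?_
  · intro c _
    rw [wt_upd Z c s hs l l' hl, hD]
    push_cast
    ring
  · intro c _ _ h
    have h1 := congrFun h s
    rw [Function.update_self] at h1
    have h2 : swap l l' = 1 := by
      have := congrArg (· * (c s)⁻¹) h1
      simpa using this
    exact hl (Equiv.swap_eq_refl_iff.mp h2)
  · intro c _
    exact Finset.mem_univ _
  · intro c _
    ext t : 1
    by_cases ht : t = s
    · subst ht
      simp [← mul_assoc]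
    · simp [Function.update_of_ne ht]

/-- no good choice with the prescribed `G` on `Z`: the form vanishes on members of the bases -/
theorem Form_base {k : ℕ} (Z : Finset ν) (b : ν → ν → ν → F) (G : ν → Fin k → ν)
    (hno : ∀ g : ν → Fin k → ν, (∀ s, Function.Injective (g s)) → (∀ s ∈ Z, g s = G s) →
      ∃ i, Matrix.det (Matrix.of fun s => b s (g s i)) = 0)
    (hG : ∀ s ∈ Z, Function.Injective (G s)) (g : ν → Fin k → ν) (hg : ∀ s ∈ Z, g s = G s) :
    Form Z (fun x : ν × Fin k => b x.1 (g x.1 x.2)) = 0 := by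
  by_cases h : ∀ s, Function.Injective (g s)
  · rw [Form_apply]
    refine Finset.sum_eq_zero fun c _ => ?_
    by_cases hc : ∀ s ∈ Z, c s = 1
    · obtain ⟨i, hi⟩ := hno (fun s i => g s (c s i)) (fun s => (h s).comp (c s).injective) (fun s hs => by
        funext i
        rw [hc s hs, Perm.one_apply, hg s hs])
      rw [DtM_apply, Finset.prod_eq_zero (Finset.mem_univ i) hi, mul_zero]
    · rw [wt, if_neg hc]
      simp
  · push Not at h
    obtain ⟨s, hs⟩ := h
    have hsZ : s ∉ Z := fun h => hs (by rw [hg s h]; exact hG s h)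
    rw [Function.Injective] at hs
    push Not at hs
    obtain ⟨l, l', h1, h2⟩ := hs
    exact Form_alt Z _ s hsZ l l' h2 (by simp only [h1])

/-- no good choice: the form vanishes if the vectors of the columns in `Z` are the prescribed members -/
theorem Form_zero {k : ℕ} (Z : Finset ν) (b : ν → ν → ν → F)
    (hb : ∀ s, Matrix.det (Matrix.of (b s)) ≠ 0) (G : ν → Fin k → ν)
    (hno : ∀ g : ν → Fin k → ν, (∀ s, Function.Injective (g s)) → (∀ s ∈ Z, g s = G s) →
      ∃ i, Matrix.det (Matrix.of fun s => b s (g s i)) = 0)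
    (hG : ∀ s ∈ Z, Function.Injective (G s))
    (w : ν × Fin k → ν → F) (hw : ∀ s ∈ Z, ∀ i, w (s, i) = b s (G s i)) :
    Form Z w = 0 := by
  classical
  have hex : ∀ x : ν × Fin k, ∃ a : ν → F, w x = ∑ j, a j • b x.1 j := by
    intro x
    refine ⟨Matrix.vecMul (w x) (Matrix.of (b x.1))⁻¹, ?_⟩
    have h1 : Matrix.vecMul (Matrix.vecMul (w x) (Matrix.of (b x.1))⁻¹) (Matrix.of (b x.1)) = w x := by
      rw [Matrix.vecMul_vecMul, Matrix.nonsing_inv_mul _ (isUnit_iff_ne_zero.mpr (hb x.1)), Matrix.vecMul_one]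
    conv_lhs => rw [← h1]
    rw [Matrix.vecMul_eq_sum]
    rfl
  have hcoef : ∀ x : ν × Fin k, ∃ a : ν → F, w x = ∑ j, a j • b x.1 j ∧
      (x.1 ∈ Z → a = fun j => if j = G x.1 x.2 then 1 else 0) := by
    intro x
    by_cases hx : x.1 ∈ Z
    · refine ⟨fun j => if j = G x.1 x.2 then 1 else 0, ?_, fun _ => rfl⟩
      rw [show w x = w (x.1, x.2) from rfl, hw x.1 hx x.2]
      simp
    · obtain ⟨a, ha⟩ := hex x
      exact ⟨a, ha, fun h => absurd h hx⟩
  choose a ha haZ using hcoef
  have hfun : w = fun x => ∑ j, a x j • b x.1 j := funext ha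
  rw [hfun, MultilinearMap.map_sum]
  refine Finset.sum_eq_zero fun r _ => ?_
  rw [MultilinearMap.map_smul_univ]
  by_cases hr : ∀ s ∈ Z, ∀ i, r (s, i) = G s i
  · have h1 : Form Z (fun x : ν × Fin k => b x.1 (r x)) = 0 :=
      Form_base Z b G hno hG (fun s i => r (s, i)) (fun s hs => funext fun i => hr s hs i)
    rw [h1, smul_zero]
  · push Not at hr
    obtain ⟨s, hs, i, hi⟩ := hr
    rw [Finset.prod_eq_zero (Finset.mem_univ (s, i)), zero_smul]
    rw [haZ (s, i) hs]
    simp [hi]

end Pool.Agent.RBt
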