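import Pool.Agent.RBt.Form

set_option autoImplicit false

/-!
# Singular linear images of the prescribed vectors
-/

namespace Pool.Agent.RBt

open Equiv Pool.Agent.RB

variable {ν : Type} [Fintype ν] [DecidableEq ν] {F : Type} [Field F]

/-- the family `w` with the vectors of the columns in `Z` replaced by `y` -/
def put {k : ℕ} (Z : Finset ν) (w : ν × Fin k → ν → F) (y : ν → Fin k → ν → F) : ν × Fin k → ν → F :=
  fun x => if x.1 ∈ Z then y x.1 x.2 else w x

/-- the values on a line of matrices are the values of a polynomial -/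
private theorem si_poly {k : ℕ} (Z : Finset ν) (w : ν × Fin k → ν → F) (y : ν → Fin k → ν → F) (A : Matrix ν ν F) :
    ∃ P : Polynomial F, ∀ lam : F,
      P.eval lam = Form Z (put Z w (fun s i => Matrix.vecMul (y s i) (Matrix.scalar ν lam + A))) := by
  classical
  let M : (ν → Perm (Fin k)) → Fin k → Matrix ν ν (Polynomial F) := fun c i => Matrix.of fun s j =>
    if s ∈ Z then Polynomial.C (Matrix.vecMul (y s i) A j) + Polynomial.X * Polynomial.C (y s i j)
    else Polynomial.C (w (s, c s i) j)
  refine ⟨∑ c : ν → Perm (Fin k), Polynomial.C ((wt Z c : ℤ) : F) * ∏ i, Matrix.det (M c i), fun lam => ?_⟩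
  rw [Form_apply, Polynomial.eval_finsetSum]
  refine Finset.sum_congr rfl fun c _ => ?_
  rw [Polynomial.eval_mul, Polynomial.eval_C, Polynomial.eval_prod]
  by_cases hc : ∀ s ∈ Z, c s = 1
  · congr 1
    rw [DtM_apply]
    refine Finset.prod_congr rfl fun i _ => ?_
    have h1 := RingHom.map_det (Polynomial.evalRingHom lam) (M c i)
    rw [Polynomial.coe_evalRingHom] at h1
    rw [h1]
    congr 1
    ext s j
    by_cases hs : s ∈ Z
    · have h2 : Matrix.vecMul (y s i) (Matrix.scalar ν lam + A) j = Matrix.vecMul (y s i) A j + lam * y s i j := by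
        rw [Matrix.vecMul_add, Pi.add_apply, add_comm]
        congr 1
        rw [Matrix.scalar_apply, Matrix.vecMul_diagonal]
        ring
      simp only [RingHom.mapMatrix_apply, Matrix.map_apply, Matrix.of_apply, M, put, hs, if_true, hc s hs,
        Perm.one_apply, h2]
      simp
      ring
    · simp [M, put, hs]
  · rw [wt, if_neg hc]
    simp

/-- no good choice: the form vanishes if the prescribed vectors are mapped by any matrix -/
theorem Form_sing [Infinite F] {k : ℕ} (Z : Finset ν) (b : ν → ν → ν → F)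
    (hb : ∀ s, Matrix.det (Matrix.of (b s)) ≠ 0) (G : ν → Fin k → ν)
    (hno : ∀ g : ν → Fin k → ν, (∀ s, Function.Injective (g s)) → (∀ s ∈ Z, g s = G s) →
      ∃ i, Matrix.det (Matrix.of fun s => b s (g s i)) = 0)
    (hG : ∀ s ∈ Z, Function.Injective (G s)) (w : ν × Fin k → ν → F) (A : Matrix ν ν F) :
    Form Z (put Z w (fun s i => Matrix.vecMul (b s (G s i)) A)) = 0 := by
  classical
  have hinv : ∀ B : Matrix ν ν F, B.det ≠ 0 → Form Z (put Z w (fun s i => Matrix.vecMul (b s (G s i)) B)) = 0 := by
    intro B hB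
    have hBu : IsUnit B.det := isUnit_iff_ne_zero.mpr hB
    have h1 : Form Z (fun x => Matrix.vecMul (put Z w (fun s i => Matrix.vecMul (b s (G s i)) B) x) B⁻¹) = 0 := by
      refine Form_zero Z b hb G hno hG _ ?_
      intro s hs i
      simp only [put, hs, if_true]
      rw [Matrix.vecMul_vecMul, Matrix.mul_nonsing_inv _ hBu, Matrix.vecMul_one]
    rw [Form_mul] at h1
    rcases mul_eq_zero.mp h1 with h2 | h2
    · exfalso
      have h3 : (B⁻¹).det ≠ 0 := by
        rw [Matrix.det_nonsing_inv]
        simpa using hB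
      exact pow_ne_zero k h3 h2
    · exact h2
  obtain ⟨P, hP⟩ := si_poly Z w (fun s i => b s (G s i)) A
  have hz : P * (-A).charpoly = 0 := by
    refine Polynomial.funext fun lam => ?_
    rw [Polynomial.eval_mul, Polynomial.eval_zero, hP, Matrix.eval_charpoly, sub_neg_eq_add]
    by_cases h0 : (Matrix.scalar ν lam + A).det = 0
    · rw [h0, mul_zero]
    · rw [hinv _ h0, zero_mul]
  have hP0 : P = 0 := by
    rcases mul_eq_zero.mp hz with h1 | h1
    · exact h1
    · exact absurd h1 (Matrix.charpoly_monic (-A)).ne_zero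
  have h5 := hP 0
  rw [hP0, Polynomial.eval_zero, map_zero, zero_add] at h5
  exact h5.symm

end Pool.Agent.RBt
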